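import Pool.Agent.Lib.MP_74a55f_co.Step

set_option autoImplicit false
set_option linter.unusedSectionVars false

namespace Pool.Agent.MP_74a55f_co

open Finset

section small

variable {V : Type*} [Fintype V] [DecidableEq V] {G : SimpleGraph V} [DecidableRel G.Adj]

variable (G) in
/-- The inductive statement for graphs of maximum degree at most two. -/
def Good2 (q : ℂ) (W : Finset V) : Prop :=
  zv G q W ≠ 0 ∧ ∀ a ∈ W, ∀ b ∈ W, a ≠ b → ¬ G.Adj a b →
    (nbr G W a).card ≤ 1 → (nbr G W b).card ≤ 1 →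
    ‖q * mv G q W {a, b} - zv G q W‖ ≤ ‖zv G q W‖

theorem good2_step {q : ℂ} (hQ : 2 < ‖q‖) (hΔ : ∀ v : V, (nbr G univ v).card ≤ 2)
    {W : Finset V} {x₀ : V} (hx₀ : x₀ ∈ W) (ih : ∀ x ∈ W, Good2 G q (W.erase x)) :
    Good2 G q W := by
  have hq : q ≠ 0 := by
    intro h; rw [h, norm_zero] at hQ; norm_num at hQ
  have hdeg : ∀ x ∈ W, ∀ w ∈ nbr G W x, (nbr G (W.erase x) w).card ≤ 1 := fun x hx w hw =>
    nbr_erase_card_lt hx hw (nbr_card_le_univ W w (hΔ w))
  constructor
  · have ih0 := ih x₀ hx₀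
    have hzpos : 0 < ‖zv G q (W.erase x₀)‖ := norm_pos_iff.2 ih0.1
    have hcard : (nbr G W x₀).card ≤ 2 := nbr_card_le_univ W x₀ (hΔ x₀)
    rw [← norm_pos_iff]
    interval_cases hc : (nbr G W x₀).card
    · rw [Finset.card_eq_zero] at hc
      rw [zv_step0 G q hq W x₀ hx₀ hc, norm_mul]
      positivity
    · obtain ⟨w, hN⟩ := Finset.card_eq_one.1 hc
      have := lower1 hq hx₀ hN
      nlinarith
    · obtain ⟨w₁, w₂, h12, hN⟩ := Finset.card_eq_two.1 hc
      by_cases hadj : G.Adj w₁ w₂
      · have := lower2adj hq hx₀ h12 hN hadj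
        nlinarith
      · have hw₁ : w₁ ∈ nbr G W x₀ := by rw [hN]; simp
        have hw₂ : w₂ ∈ nbr G W x₀ := by rw [hN]; simp
        have hp := ih0.2 w₁ (mem_erase_of_nbr G hw₁) w₂ (mem_erase_of_nbr G hw₂) h12 hadj
          (hdeg _ hx₀ _ hw₁) (hdeg _ hx₀ _ hw₂)
        have e : q * zv G q W = (q - 1) ^ 2 * zv G q (W.erase x₀) +
            (q * mv G q (W.erase x₀) {w₁, w₂} - zv G q (W.erase x₀)) := by
          rw [zv_step2 G q hq W x₀ w₁ w₂ hx₀ h12 hN]; ring
        have h1 := norm_sub_norm_le ((q - 1) ^ 2 * zv G q (W.erase x₀))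
          (-(q * mv G q (W.erase x₀) {w₁, w₂} - zv G q (W.erase x₀)))
        rw [sub_neg_eq_add, norm_neg, ← e, norm_mul, norm_pow] at h1
        have h2 : ‖q‖ - 1 ≤ ‖q - 1‖ := by
          have := norm_sub_norm_le q 1
          simpa using this
        have h3 : (‖q‖ - 1) ^ 2 ≤ ‖q - 1‖ ^ 2 := pow_le_pow_left₀ (by linarith) h2 2
        have h4 : (‖q‖ - 1) ^ 2 * ‖zv G q (W.erase x₀)‖ ≤
            ‖q - 1‖ ^ 2 * ‖zv G q (W.erase x₀)‖ :=
          mul_le_mul_of_nonneg_right h3 (norm_nonneg _)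
        have h5 : 0 < ((‖q‖ - 1) ^ 2 - 1) * ‖zv G q (W.erase x₀)‖ := by
          apply mul_pos _ hzpos
          nlinarith
        by_contra hcon
        have h6 : ‖zv G q W‖ = 0 := le_antisymm (not_lt.1 hcon) (norm_nonneg _)
        rw [norm_mul, h6, mul_zero] at h1
        nlinarith
  · intro a ha b hb hab hadj hda hdb
    have ih0 := ih a ha
    have hzpos : 0 < ‖zv G q (W.erase a)‖ := norm_pos_iff.2 ih0.1
    have hb' : b ∈ W.erase a := Finset.mem_erase.2 ⟨hab.symm, hb⟩
    interval_cases hc : (nbr G W a).card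
    · rw [Finset.card_eq_zero] at hc
      rw [mv_insert0 G q W {b} a ha (by simpa using hab) hc, zv_step0 G q hq W a ha hc,
        mv_singleton G q hq _ b hb', sub_self, norm_zero]
      positivity
    · obtain ⟨w, hN⟩ := Finset.card_eq_one.1 hc
      have hw : w ∈ nbr G W a := by rw [hN]; simp
      have hwb : w ≠ b := fun h => hadj (h ▸ ((mem_nbr G).1 hw).2)
      have hl := lower1 hq ha hN
      have e : q * mv G q W {a, b} - zv G q W =
          -(q * mv G q (W.erase a) {w, b} - zv G q (W.erase a)) := by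
        rw [mv_insert1 G q W {b} a w ha (by simpa using hab) hN, zv_step1 G q hq W a w ha hN,
          mv_singleton G q hq _ b hb']
        ring
      rw [e, norm_neg]
      have h1 : ‖q * mv G q (W.erase a) {w, b} - zv G q (W.erase a)‖ ≤
          ‖zv G q (W.erase a)‖ := by
        by_cases hwb' : G.Adj w b
        · rw [mv_adj G q _ {w, b} w b (by simp) (by simp) hwb', mul_zero, zero_sub, norm_neg]
        · exact ih0.2 w (mem_erase_of_nbr G hw) b hb' hwb hwb' (hdeg _ ha _ hw)
            (nbr_erase_card hdb)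
      nlinarith

theorem good2_all {q : ℂ} (hQ : 2 < ‖q‖) (hΔ : ∀ v : V, (nbr G univ v).card ≤ 2) (n : ℕ) :
    ∀ W : Finset V, W.card = n → Good2 G q W := by
  have hq : q ≠ 0 := by
    intro h; rw [h, norm_zero] at hQ; norm_num at hQ
  induction n with
  | zero =>
    intro W hW
    rw [Finset.card_eq_zero] at hW
    subst hW
    exact ⟨by rw [zv_empty G q hq]; exact one_ne_zero, fun a ha => by simp at ha⟩
  | succ n ih =>
    intro W hW
    have hWn : W.Nonempty := by rw [← Finset.card_pos, hW]; omega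
    obtain ⟨x₀, hx₀⟩ := hWn
    exact good2_step hQ hΔ hx₀ fun x hx =>
      ih _ (by rw [Finset.card_erase_of_mem hx, hW]; simp)

theorem zero_all {q : ℂ} (hq : q ≠ 0) (hΔ : ∀ v : V, (nbr G univ v).card ≤ 0) (n : ℕ) :
    ∀ W : Finset V, W.card = n → zv G q W ≠ 0 := by
  induction n with
  | zero =>
    intro W hW
    rw [Finset.card_eq_zero] at hW
    subst hW
    rw [zv_empty G q hq]; exact one_ne_zero
  | succ n ih =>
    intro W hW
    have hWn : W.Nonempty := by rw [← Finset.card_pos, hW]; omega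
    obtain ⟨x, hx⟩ := hWn
    have hc : nbr G W x = ∅ := by
      rw [← Finset.card_eq_zero]
      have := nbr_card_le_univ W x (hΔ x)
      omega
    rw [zv_step0 G q hq W x hx hc]
    exact mul_ne_zero hq (ih _ (by rw [Finset.card_erase_of_mem hx, hW]; simp))

variable (G) in
theorem eval_eq_zv (P : Polynomial ℂ)
    (hP : ∀ k : ℕ, P.eval (k : ℂ) = (Nat.card (G.Coloring (Fin k)) : ℂ)) {q : ℂ} (hq : q ≠ 0) :
    P.eval q = zv G q univ := by
  have h : Polynomial.X * P = mp G univ ∅ := by
    apply poly_ext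
    intro k
    rw [Polynomial.eval_mul, hP, card_coloring, mp_eval, cnt_empty]
    simp
  unfold zv mv
  rw [← h, Polynomial.eval_mul, Polynomial.eval_X]
  field_simp

end small

/-- Sokal's bound for graphs of maximum degree at most three. -/
theorem sokal_of_maxDegree_le_three (n : ℕ) (G : SimpleGraph (Fin n)) [DecidableRel G.Adj]
    (hΔ : G.maxDegree ≤ 3) (P : Polynomial ℂ)
    (hP : ∀ k : ℕ, P.eval (k : ℂ) = (Nat.card (G.Coloring (Fin k)) : ℂ))
    (z : ℂ) (hz : P.IsRoot z) : ‖z‖ ≤ 2 * (G.maxDegree : ℝ) := by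
  classical
  have hnbr : ∀ v : Fin n, (nbr G univ v).card = G.degree v := by
    intro v
    rw [← SimpleGraph.card_neighborFinset_eq_degree]
    congr 1
    ext w
    simp [nbr]
  have hdeg : ∀ v : Fin n, (nbr G univ v).card ≤ G.maxDegree := fun v => by
    rw [hnbr]; exact G.degree_le_maxDegree v
  by_contra hcon
  push Not at hcon
  have hz0 : z ≠ 0 := by
    rintro rfl
    rw [norm_zero] at hcon
    have : (0 : ℝ) ≤ 2 * (G.maxDegree : ℝ) := by positivity
    linarith
  have hne : zv G z univ ≠ 0 := by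
    interval_cases hm : G.maxDegree
    · exact zero_all hz0 (fun v => hdeg v) _ univ rfl
    · exact (good2_all (by norm_num at hcon ⊢; exact hcon)
        (fun v => (hdeg v).trans (by norm_num)) _ univ rfl).1
    · exact (good2_all (by norm_num at hcon ⊢; linarith)
        (fun v => (hdeg v).trans (by norm_num)) _ univ rfl).1
    · exact (good_all (by norm_num at hcon ⊢; linarith)
        (fun v => (hdeg v).trans (by norm_num)) _ univ rfl).1
  apply hne
  rw [← eval_eq_zv G P hP hz0]
  exact hz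

/-- Chromatic roots of graphs of maximum degree at most three lie in the open disc of radius
six. -/
theorem lt_six_of_maxDegree_le_three (n : ℕ) (G : SimpleGraph (Fin n)) [DecidableRel G.Adj]
    (hΔ : G.maxDegree ≤ 3) (P : Polynomial ℂ)
    (hP : ∀ k : ℕ, P.eval (k : ℂ) = (Nat.card (G.Coloring (Fin k)) : ℂ))
    (z : ℂ) (hz : P.IsRoot z) : ‖z‖ < 6 := by
  classical
  have hnbr : ∀ v : Fin n, (nbr G univ v).card = G.degree v := by
    intro v
    rw [← SimpleGraph.card_neighborFinset_eq_degree]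
    congr 1
    ext w
    simp [nbr]
  by_contra hcon
  push Not at hcon
  have hz0 : z ≠ 0 := by
    rintro rfl
    rw [norm_zero] at hcon
    norm_num at hcon
  have hne : zv G z univ ≠ 0 :=
    (good_all hcon (fun v => by rw [hnbr]; exact (G.degree_le_maxDegree v).trans hΔ)
      _ univ rfl).1
  apply hne
  rw [← eval_eq_zv G P hP hz0]
  exact hz

end Pool.Agent.MP_74a55f_co
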