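import Pool.Agent.Lib.MP_74a55f_co.IndPoly
import Pool.Agent.Lib.MP_74a55f_co.Final

set_option autoImplicit false
set_option linter.unusedSectionVars false

namespace Pool.Agent.MP_74a55f_co

open Finset

section sums

variable {V : Type*} [DecidableEq V]

theorem sum_pow_card (t : ℝ) (N : Finset V) :
    ∑ T ∈ N.powerset, t ^ T.card = (1 + t) ^ N.card := by
  have := Finset.sum_pow_mul_eq_add_pow t 1 N
  simpa [add_comm] using this

theorem sum_pow_card1 (r : ℝ) (N : Finset V) :
    ∑ T ∈ N.powerset, (if T.card = 1 then r else 0) = N.card * r := by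
  induction N using Finset.induction_on with
  | empty => simp
  | insert v N hv ih =>
    rw [Finset.sum_powerset_insert hv, ih, Finset.card_insert_of_notMem hv]
    have : ∑ T ∈ N.powerset, (if (insert v T).card = 1 then r else 0) = r := by
      rw [Finset.sum_eq_single ∅]
      · simp
      · intro T hT hne
        rw [Finset.mem_powerset] at hT
        rw [Finset.card_insert_of_notMem fun h => hv (hT h), if_neg]
        intro h
        exact hne (Finset.card_eq_zero.1 (by omega))
      · intro h
        exact absurd (Finset.empty_mem_powerset N) h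
    rw [this]
    push_cast
    ring

theorem sum_pow_card2 (t : ℝ) (N : Finset V) :
    ∑ T ∈ N.powerset, (if 2 ≤ T.card then t ^ T.card else 0) =
      (1 + t) ^ N.card - 1 - N.card * t := by
  have h1 := sum_pow_card t N
  have h2 := sum_pow_card1 t N
  have h3 : ∑ T ∈ N.powerset, (if T.card = 0 then (1 : ℝ) else 0) = 1 := by
    rw [Finset.sum_eq_single ∅]
    · simp
    · intro T _ hne
      rw [if_neg]
      exact fun h => hne (Finset.card_eq_zero.1 h)
    · intro h
      exact absurd (Finset.empty_mem_powerset N) h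
  have h4 : ∑ T ∈ N.powerset, (if 2 ≤ T.card then t ^ T.card else 0) =
      ∑ T ∈ N.powerset, t ^ T.card - ∑ T ∈ N.powerset, (if T.card = 0 then (1 : ℝ) else 0) -
        ∑ T ∈ N.powerset, (if T.card = 1 then t else 0) := by
    rw [← Finset.sum_sub_distrib, ← Finset.sum_sub_distrib]
    refine Finset.sum_congr rfl fun T _ => ?_
    rcases Nat.lt_or_ge T.card 2 with h | h
    · interval_cases hc : T.card <;> simp
    · rw [if_pos h, if_neg (by omega), if_neg (by omega)]; ring
  rw [h4, h1, h2, h3]

end sums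

variable {V : Type*} [Fintype V] [DecidableEq V] {G : SimpleGraph V} [DecidableRel G.Adj]

/-- Allowed deviations in the general case. -/
noncomputable def rg (a c : ℝ) : ℕ → ℝ
  | 0 => 0
  | 1 => 0
  | (k + 2) => a * c ^ k

theorem rg_nonneg {a c : ℝ} (ha : 0 ≤ a) (hc : 0 ≤ c) (k : ℕ) : 0 ≤ rg a c k := by
  match k with
  | 0 => simp [rg]
  | 1 => simp [rg]
  | (k + 2) => simp only [rg]; positivity

variable (G) in
/-- The inductive statement in the general case. -/
def GoodG (a c : ℝ) (D : ℕ) (q : ℂ) (W : Finset V) : Prop :=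
  zv G q W ≠ 0 ∧ ∀ S : Finset V, S ⊆ W → S.Nonempty → Ind G S →
    (∀ s ∈ S, (nbr G W s).card ≤ D) →
    ‖q ^ (S.card - 1) * mv G q W S - zv G q W‖ ≤ rg a c S.card * ‖zv G q W‖

/-- Lower bound for the effect of one vertex. -/
theorem lowerG {a c : ℝ} (ha : 0 ≤ a) (hc : 0 ≤ c) {D : ℕ} {q : ℂ} (hq : q ≠ 0) {W : Finset V}
    {x : V} (hx : x ∈ W) (ih : GoodG G a c D q (W.erase x))
    (hdeg : ∀ w ∈ nbr G W x, (nbr G (W.erase x) w).card ≤ D)
    (hN : ((nbr G W x).card : ℝ) * ‖q‖⁻¹ < 1) :
    ‖q‖ * (1 - (nbr G W x).card * ‖q‖⁻¹ -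
      ∑ T ∈ (nbr G W x).powerset, ‖q‖⁻¹ ^ T.card * rg a c T.card) * ‖zv G q (W.erase x)‖ ≤
      ‖zv G q W‖ := by
  set N := nbr G W x with hNdef
  set z' := zv G q (W.erase x) with hz'
  set y : ℂ := -q⁻¹ with hy
  have hynorm : ‖y‖ = ‖q‖⁻¹ := by rw [hy, norm_neg, norm_inv]
  set e : Finset V → ℂ := fun T =>
    if T.Nonempty ∧ Ind G T then q ^ (T.card - 1) * mv G q (W.erase x) T - z' else 0 with he
  have hterm : ∀ T ∈ N.powerset, (-1) ^ T.card * mv G q (W.erase x) T =
      q * (z' * (if Ind G T then y ^ T.card else 0) + y ^ T.card * e T) := by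
    intro T hT
    by_cases hI : Ind G T
    · by_cases hTn : T.Nonempty
      · rw [if_pos hI]
        simp only [he]
        rw [if_pos ⟨hTn, hI⟩]
        obtain ⟨k, hk⟩ : ∃ k, T.card = k + 1 := ⟨T.card - 1, by
          have := Finset.card_pos.2 hTn; omega⟩
        rw [hk]
        simp only [Nat.add_sub_cancel]
        have : y ^ (k + 1) * q ^ (k + 1) = (-1) ^ (k + 1) := by
          rw [← mul_pow, hy]
          congr 1
          field_simp
        calc (-1) ^ (k + 1) * mv G q (W.erase x) T =
            (y ^ (k + 1) * q ^ (k + 1)) * mv G q (W.erase x) T := by rw [this]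
          _ = _ := by rw [pow_succ q]; ring
      · rw [Finset.not_nonempty_iff_eq_empty] at hTn
        subst hTn
        simp only [he]
        rw [if_pos hI, if_neg (by simp), mv_empty G q hq]
        simp [hz']
    · rw [not_ind_mv q _ T hI, if_neg hI]
      simp only [he]
      rw [if_neg (fun h => hI h.2)]
      ring
  have hz : zv G q W = q * (z' * ip G y N + ∑ T ∈ N.powerset, y ^ T.card * e T) := by
    rw [← mv_singleton G q hq W x hx, show ({x} : Finset V) = insert x ∅ from rfl,
      mv_insert G q W ∅ x hx (by simp)]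
    simp only [Finset.empty_union]
    rw [Finset.sum_congr rfl hterm, ← Finset.mul_sum, Finset.sum_add_distrib, ← Finset.mul_sum]
    rfl
  have hsum : ‖∑ T ∈ N.powerset, y ^ T.card * e T‖ ≤
      (∑ T ∈ N.powerset, ‖q‖⁻¹ ^ T.card * rg a c T.card) * ‖z'‖ := by
    rw [Finset.sum_mul]
    refine (norm_sum_le _ _).trans (Finset.sum_le_sum fun T hT => ?_)
    rw [norm_mul, norm_pow, hynorm, mul_assoc]
    refine mul_le_mul_of_nonneg_left ?_ (by positivity)
    simp only [he]
    by_cases h : T.Nonempty ∧ Ind G T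
    · rw [if_pos h]
      rw [Finset.mem_powerset] at hT
      exact ih.2 T (fun w hw => mem_erase_of_nbr G (hT hw)) h.1 h.2 fun s hs => hdeg s (hT hs)
    · rw [if_neg h, norm_zero]
      exact mul_nonneg (rg_nonneg ha hc _) (norm_nonneg _)
  have hip := ip_lower G y ‖q‖⁻¹ (by positivity) hynorm.le N hN
  rw [hz, norm_mul, mul_assoc]
  refine mul_le_mul_of_nonneg_left ?_ (norm_nonneg _)
  have h1 := norm_sub_norm_le (z' * ip G y N) (-(∑ T ∈ N.powerset, y ^ T.card * e T))
  rw [sub_neg_eq_add, norm_neg, norm_mul] at h1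
  have h2 := mul_le_mul_of_nonneg_left hip (norm_nonneg z')
  nlinarith

/-- Upper bound for the deviation after adding `x` to the monochromatic set. -/
theorem upperG {a c : ℝ} (ha : 0 ≤ a) (hc : 0 ≤ c) {D : ℕ} {q : ℂ} (hq : q ≠ 0) {W : Finset V}
    {x : V} (hx : x ∈ W) (ih : GoodG G a c D q (W.erase x))
    (hdeg : ∀ w ∈ nbr G W x, (nbr G (W.erase x) w).card ≤ D) {S : Finset V}
    (hS : S ⊆ W.erase x) (hSn : S.Nonempty) (hI : Ind G (insert x S))
    (hd : ∀ s ∈ insert x S, (nbr G W s).card ≤ D) :
    ‖q ^ S.card * mv G q W (insert x S) - zv G q W‖ ≤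
      ‖q‖ * (∑ T ∈ (nbr G W x).powerset, ‖q‖⁻¹ ^ T.card *
        (if T.card = 0 then rg a c S.card else
          max (rg a c (S.card + T.card)) 1 + rg a c T.card)) * ‖zv G q (W.erase x)‖ := by
  set N := nbr G W x with hNdef
  set z' := zv G q (W.erase x) with hz'
  set y : ℂ := -q⁻¹ with hy
  have hynorm : ‖y‖ = ‖q‖⁻¹ := by rw [hy, norm_neg, norm_inv]
  have hxS : x ∉ S := fun h => by simpa using hS h
  have hdS : ∀ s ∈ S, (nbr G (W.erase x) s).card ≤ D := fun s hs =>
    nbr_erase_card (hd s (Finset.mem_insert_of_mem hs))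
  have hIS : Ind G S := hI.mono (Finset.subset_insert _ _)
  have hnS : ∀ w ∈ N, w ∉ S := fun w hw hwS =>
    hI x (Finset.mem_insert_self _ _) w (Finset.mem_insert_of_mem hwS)
      ((mem_nbr G).1 hw).2
  obtain ⟨j, hj⟩ : ∃ j, S.card = j + 1 := ⟨S.card - 1, by
    have := Finset.card_pos.2 hSn; omega⟩
  set g : Finset V → ℂ := fun T =>
    if T = ∅ then q ^ j * mv G q (W.erase x) S - z'
    else q ^ (j + T.card) * mv G q (W.erase x) (S ∪ T) - q ^ (T.card - 1) *
      mv G q (W.erase x) T with hg
  have hterm : ∀ T ∈ N.powerset,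
      q ^ S.card * ((-1) ^ T.card * mv G q (W.erase x) (S ∪ T)) -
        (-1) ^ T.card * mv G q (W.erase x) T = q * (y ^ T.card * g T) := by
    intro T hT
    simp only [hg]
    by_cases hTn : T = ∅
    · subst hTn
      rw [if_pos rfl, mv_empty G q hq, hj, Finset.union_empty]
      simp only [Finset.card_empty, pow_zero, one_mul, pow_succ]
      rw [← hz']
      ring
    · rw [if_neg hTn]
      obtain ⟨k, hk⟩ : ∃ k, T.card = k + 1 := ⟨T.card - 1, by
        have := Finset.card_pos.2 (Finset.nonempty_iff_ne_empty.2 hTn); omega⟩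
      rw [hk, hj]
      simp only [Nat.add_sub_cancel]
      have h1 : y ^ (k + 1) * q ^ (k + 1) = (-1) ^ (k + 1) := by
        rw [← mul_pow, hy]
        congr 1
        field_simp
      rw [← h1, show j + (k + 1) = j + k + 1 by ring, pow_succ q (j + k), pow_add q j k,
        pow_succ q k, pow_succ q j]
      ring
  have hz : q ^ S.card * mv G q W (insert x S) - zv G q W =
      q * ∑ T ∈ N.powerset, y ^ T.card * g T := by
    rw [← mv_singleton G q hq W x hx, show ({x} : Finset V) = insert x ∅ from rfl,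
      mv_insert G q W ∅ x hx (by simp), mv_insert G q W S x hx hxS]
    simp only [Finset.empty_union]
    rw [Finset.mul_sum, ← Finset.sum_sub_distrib, Finset.sum_congr rfl hterm, ← Finset.mul_sum]
  rw [hz, norm_mul, mul_assoc]
  refine mul_le_mul_of_nonneg_left ?_ (norm_nonneg _)
  rw [Finset.sum_mul]
  refine (norm_sum_le _ _).trans (Finset.sum_le_sum fun T hT => ?_)
  rw [norm_mul, norm_pow, hynorm, mul_assoc]
  refine mul_le_mul_of_nonneg_left ?_ (by positivity)
  rw [Finset.mem_powerset] at hT
  have hTW : T ⊆ W.erase x := fun w hw => mem_erase_of_nbr G (hT hw)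
  simp only [hg]
  by_cases hTn : T = ∅
  · subst hTn
    rw [if_pos rfl, if_pos Finset.card_empty]
    have := ih.2 S hS hSn hIS hdS
    rw [hj] at this ⊢
    simpa using this
  · have hTne : T.Nonempty := Finset.nonempty_iff_ne_empty.2 hTn
    rw [if_neg hTn, if_neg (fun h => hTn (Finset.card_eq_zero.1 h))]
    have hdisj : Disjoint S T := by
      rw [Finset.disjoint_right]
      exact fun w hw => hnS w (hT hw)
    have hcard : (S ∪ T).card = S.card + T.card := Finset.card_union_of_disjoint hdisj
    have hz0 : 0 ≤ ‖z'‖ := norm_nonneg _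
    have hrT : 0 ≤ rg a c T.card := rg_nonneg ha hc _
    by_cases hIT : Ind G T
    · have h2 := ih.2 T hTW hTne hIT (fun s hs => hdeg s (hT hs))
      by_cases hIST : Ind G (S ∪ T)
      · have h1 := ih.2 (S ∪ T) (Finset.union_subset hS hTW) (hSn.mono Finset.subset_union_left)
          hIST (by
            intro s hs
            rcases Finset.mem_union.1 hs with h | h
            · exact hdS s h
            · exact hdeg s (hT h))
        rw [hcard, hj] at h1
        have e1 : j + 1 + T.card - 1 = j + T.card := by omega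
        rw [e1] at h1
        have e2 : q ^ (j + T.card) * mv G q (W.erase x) (S ∪ T) - q ^ (T.card - 1) *
            mv G q (W.erase x) T = (q ^ (j + T.card) * mv G q (W.erase x) (S ∪ T) - z') -
            (q ^ (T.card - 1) * mv G q (W.erase x) T - z') := by ring
        rw [e2, hj]
        refine (norm_sub_le _ _).trans ?_
        have h3 : rg a c (j + 1 + T.card) * ‖z'‖ ≤ max (rg a c (j + 1 + T.card)) 1 * ‖z'‖ :=
          mul_le_mul_of_nonneg_right (le_max_left _ _) hz0
        nlinarith
      · rw [not_ind_mv q _ _ hIST]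
        have e2 : q ^ (j + T.card) * 0 - q ^ (T.card - 1) *
            mv G q (W.erase x) T = -z' -
            (q ^ (T.card - 1) * mv G q (W.erase x) T - z') := by ring
        rw [e2]
        refine (norm_sub_le _ _).trans ?_
        rw [norm_neg]
        have h3 : 1 * ‖z'‖ ≤ max (rg a c (S.card + T.card)) 1 * ‖z'‖ :=
          mul_le_mul_of_nonneg_right (le_max_right _ _) hz0
        nlinarith
    · have hIST : ¬ Ind G (S ∪ T) := fun h => hIT (h.mono Finset.subset_union_right)
      rw [not_ind_mv q _ _ hIST, not_ind_mv q _ _ hIT]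
      simp only [mul_zero, sub_zero, norm_zero]
      positivity

end Pool.Agent.MP_74a55f_co
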