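import Pool.Agent.Lib.MP_74a55f_co.General

set_option autoImplicit false
set_option linter.unusedSectionVars false

namespace Pool.Agent.MP_74a55f_co

open Finset

/-- `(1 + 1/D)^d - 1 - d/D`. -/
noncomputable def hh (D d : ℕ) : ℝ := (1 + (D : ℝ)⁻¹) ^ d - 1 - d * (D : ℝ)⁻¹

theorem hh_succ (D d : ℕ) :
    hh D (d + 1) = hh D d + (D : ℝ)⁻¹ * ((1 + (D : ℝ)⁻¹) ^ d - 1) := by
  unfold hh; push_cast; ring

theorem hh_mono (D : ℕ) {d e : ℕ} (h : d ≤ e) : hh D d ≤ hh D e := by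
  have hm : Monotone (hh D) := by
    refine monotone_nat_of_le_succ fun n => ?_
    rw [hh_succ]
    have h1 : (1 : ℝ) ≤ (1 + (D : ℝ)⁻¹) ^ n := one_le_pow₀ (by
      have : (0 : ℝ) ≤ (D : ℝ)⁻¹ := by positivity
      linarith)
    have h2 : (0 : ℝ) ≤ (D : ℝ)⁻¹ := by positivity
    nlinarith
  exact hm h

theorem X_mono (D : ℕ) {d e : ℕ} (h : d ≤ e) : (1 + (D : ℝ)⁻¹) ^ d ≤ (1 + (D : ℝ)⁻¹) ^ e :=
  pow_le_pow_right₀ (by
    have : (0 : ℝ) ≤ (D : ℝ)⁻¹ := by positivity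
    linarith) h

theorem X_le (D : ℕ) (hD : 1 ≤ D) : (1 + (D : ℝ)⁻¹) ^ D ≤ 2.71829 := by
  have h1 : 1 + (D : ℝ)⁻¹ ≤ Real.exp ((D : ℝ)⁻¹) := by
    have := Real.add_one_le_exp ((D : ℝ)⁻¹)
    linarith
  have h2 : (1 + (D : ℝ)⁻¹) ^ D ≤ Real.exp ((D : ℝ)⁻¹) ^ D :=
    pow_le_pow_left₀ (by positivity) h1 D
  rw [← Real.exp_nat_mul] at h2
  have hD' : (D : ℝ) ≠ 0 := by
    have : (1 : ℝ) ≤ D := by exact_mod_cast hD
    linarith
  rw [mul_inv_cancel₀ hD'] at h2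
  have := Real.exp_one_lt_d9
  linarith

theorem hh_D_le (D : ℕ) (hD : 1 ≤ D) : hh D D ≤ 0.71829 := by
  have := X_le D hD
  have hD' : (D : ℝ) ≠ 0 := by
    have : (1 : ℝ) ≤ D := by exact_mod_cast hD
    linarith
  unfold hh
  rw [mul_inv_cancel₀ hD']
  linarith

theorem hh_D1_le (D : ℕ) (hD : 1 ≤ D) : hh D (D + 1) ≤ 2.5 := by
  rw [hh_succ]
  have h1 := X_le D hD
  have h2 := hh_D_le D hD
  have h3 : (D : ℝ)⁻¹ ≤ 1 := by
    have : (1 : ℝ) ≤ D := by exact_mod_cast hD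
    exact inv_le_one_of_one_le₀ this
  have h4 : (0 : ℝ) ≤ (D : ℝ)⁻¹ := by positivity
  nlinarith

theorem hh_nonneg (D d : ℕ) : 0 ≤ hh D d := by
  have : hh D 0 = 0 := by simp [hh]
  rw [← this]
  exact hh_mono D (Nat.zero_le d)

section sums

variable {V : Type*} [DecidableEq V]

theorem term_low {a c Q t : ℝ} (hc : 0 < c) (hQ : Q⁻¹ = t / c) (j : ℕ) :
    Q⁻¹ ^ j * rg a c j = (a / c ^ 2) * (if 2 ≤ j then t ^ j else 0) := by
  match j with
  | 0 => simp [rg]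
  | 1 => simp [rg]
  | (k + 2) =>
    rw [if_pos (by omega), hQ]
    simp only [rg]
    rw [div_pow, pow_add c k 2]
    field_simp

theorem sum_low {a c Q : ℝ} (D : ℕ) (hc : 0 < c) (hQ : Q⁻¹ = (D : ℝ)⁻¹ / c)
    (N : Finset V) :
    ∑ T ∈ N.powerset, Q⁻¹ ^ T.card * rg a c T.card = (a / c ^ 2) * hh D N.card := by
  rw [Finset.sum_congr rfl fun T _ => term_low (a := a) hc hQ T.card, ← Finset.mul_sum,
    sum_pow_card2]
  rfl

theorem sum_up2 {a c Q : ℝ} (D : ℕ) (hc : 1 ≤ c) (hac : 1 ≤ a * c)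
    (hQ : Q⁻¹ = (D : ℝ)⁻¹ / c) (k : ℕ) (N : Finset V) :
    ∑ T ∈ N.powerset, Q⁻¹ ^ T.card * (if T.card = 0 then rg a c (k + 2) else
          max (rg a c (k + 2 + T.card)) 1 + rg a c T.card) =
      a * c ^ k * (1 + (D : ℝ)⁻¹) ^ N.card + (a / c ^ 2) * hh D N.card := by
  have hc0 : 0 < c := by linarith
  have hterm : ∀ T ∈ N.powerset, Q⁻¹ ^ T.card * (if T.card = 0 then rg a c (k + 2) else
          max (rg a c (k + 2 + T.card)) 1 + rg a c T.card) =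
      a * c ^ k * (D : ℝ)⁻¹ ^ T.card + (a / c ^ 2) *
        (if 2 ≤ T.card then (D : ℝ)⁻¹ ^ T.card else 0) := by
    intro T _
    rw [← term_low (a := a) hc0 hQ]
    by_cases h : T.card = 0
    · rw [if_pos h, h]
      simp [rg]
    · rw [if_neg h]
      obtain ⟨j, hj⟩ := Nat.exists_eq_succ_of_ne_zero h
      rw [hj]
      have e : rg a c (k + 2 + (j + 1)) = a * c ^ (k + (j + 1)) := by
        rw [show k + 2 + (j + 1) = (k + (j + 1)) + 2 by ring]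
        rfl
      have h1 : 1 ≤ a * c ^ (k + (j + 1)) := by
        rw [show k + (j + 1) = (k + j) + 1 by ring, pow_succ]
        have : 1 ≤ c ^ (k + j) := one_le_pow₀ hc
        calc (1 : ℝ) ≤ a * c := hac
          _ ≤ (a * c) * c ^ (k + j) := le_mul_of_one_le_right (by linarith) this
          _ = _ := by ring
      rw [Nat.succ_eq_add_one, e, max_eq_left h1, mul_add]
      congr 1
      rw [hQ, div_pow, pow_add c k]
      field_simp
  rw [Finset.sum_congr rfl hterm, Finset.sum_add_distrib, ← Finset.mul_sum, ← Finset.mul_sum,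
    sum_pow_card, sum_pow_card2]
  rfl

theorem sum_up1 {a c Q : ℝ} (D : ℕ) (ha1 : a ≤ 1) (hc : 1 ≤ c) (hac : 1 ≤ a * c)
    (hQ : Q⁻¹ = (D : ℝ)⁻¹ / c) (N : Finset V) :
    ∑ T ∈ N.powerset, Q⁻¹ ^ T.card * (if T.card = 0 then rg a c 1 else
          max (rg a c (1 + T.card)) 1 + rg a c T.card) =
      N.card * Q⁻¹ + (a / c + a / c ^ 2) * hh D N.card := by
  have hc0 : 0 < c := by linarith
  have hterm : ∀ T ∈ N.powerset, Q⁻¹ ^ T.card * (if T.card = 0 then rg a c 1 else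
          max (rg a c (1 + T.card)) 1 + rg a c T.card) =
      (if T.card = 1 then Q⁻¹ else 0) + (a / c + a / c ^ 2) *
        (if 2 ≤ T.card then (D : ℝ)⁻¹ ^ T.card else 0) := by
    intro T _
    match hT : T.card with
    | 0 => simp [rg]
    | 1 =>
      have : max a 1 = 1 := max_eq_right ha1
      simp [rg, this]
    | (j + 2) =>
      rw [if_neg (by omega), if_neg (by omega), if_pos (by omega)]
      have e : rg a c (1 + (j + 2)) = a * c ^ (j + 1) := by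
        rw [show 1 + (j + 2) = (j + 1) + 2 by ring]
        rfl
      have e2 : rg a c (j + 2) = a * c ^ j := rfl
      have h1 : 1 ≤ a * c ^ (j + 1) := by
        rw [pow_succ]
        have : 1 ≤ c ^ j := one_le_pow₀ hc
        calc (1 : ℝ) ≤ a * c := hac
          _ ≤ (a * c) * c ^ j := le_mul_of_one_le_right (by linarith) this
          _ = _ := by ring
      rw [e, e2, max_eq_left h1, zero_add, hQ, div_pow, pow_add c j 2, pow_succ c j]
      field_simp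
  rw [Finset.sum_congr rfl hterm, Finset.sum_add_distrib, ← Finset.mul_sum,
    sum_pow_card1, sum_pow_card2]
  rfl

end sums

/-- First numerical condition. -/
theorem numA {c X g : ℝ} (hc : 3.87 ≤ c) (hX : X ≤ 2.71829) (hg : g ≤ 0.71829) (hg0 : 0 ≤ g) :
    X + (27 / 50 / c ^ 2) * g ≤ c * (1 - 1 / c - (27 / 50 / c ^ 2) * g) -
      (1 / c ^ 2 - 27 / 50 / c ^ 2) * g := by
  have hc0 : 0 < c := by linarith
  have h1 : 1 / c ≤ 1 / 3.87 := one_div_le_one_div_of_le (by norm_num) hc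
  have h2 : 0 < 1 / c := by positivity
  have e : c * (1 - 1 / c - (27 / 50 / c ^ 2) * g) = c - 1 - (27 / 50) * (1 / c) * g := by
    field_simp
  have e2 : 27 / 50 / c ^ 2 = 27 / 50 * (1 / c) ^ 2 := by
    field_simp
  have e3 : 1 / c ^ 2 = (1 / c) ^ 2 := by
    field_simp
  rw [e, e2, e3]
  set u := 1 / c with hu
  have h3 : u ^ 2 ≤ (1 / 3.87) ^ 2 := pow_le_pow_left₀ h2.le h1 2
  have h4 : u * g ≤ (1 / 3.87) * 0.71829 := mul_le_mul h1 hg hg0 (by norm_num)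
  have h5 : u ^ 2 * g ≤ (1 / 3.87) ^ 2 * 0.71829 := mul_le_mul h3 hg hg0 (by norm_num)
  nlinarith

/-- Second numerical condition. -/
theorem numB {c g : ℝ} (hc : 3.87 ≤ c) (hg : g ≤ 0.71829) (hg0 : 0 ≤ g) :
    1 / c + (27 / 50 / c + 27 / 50 / c ^ 2) * g ≤
      27 / 50 * (1 - 1 / c - (27 / 50 / c ^ 2) * g) := by
  have hc0 : 0 < c := by linarith
  have h1 : 1 / c ≤ 1 / 3.87 := one_div_le_one_div_of_le (by norm_num) hc
  have h2 : 0 < 1 / c := by positivity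
  have e2 : 27 / 50 / c ^ 2 = 27 / 50 * (1 / c) ^ 2 := by
    field_simp
  have e3 : 27 / 50 / c = 27 / 50 * (1 / c) := by
    field_simp
  rw [e2, e3]
  set u := 1 / c with hu
  have h3 : u ^ 2 ≤ (1 / 3.87) ^ 2 := pow_le_pow_left₀ h2.le h1 2
  have h4 : u * g ≤ (1 / 3.87) * 0.71829 := mul_le_mul h1 hg hg0 (by norm_num)
  have h5 : u ^ 2 * g ≤ (1 / 3.87) ^ 2 * 0.71829 := mul_le_mul h3 hg hg0 (by norm_num)
  norm_num at h1 h4 h5 ⊢
  nlinarith

/-- Third numerical condition. -/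
theorem numC {c t g : ℝ} (hc : 3.87 ≤ c) (ht : t ≤ 2 / c) (hg : g ≤ 2.5) (hg0 : 0 ≤ g) :
    0 < 1 - t - (27 / 50 / c ^ 2) * g := by
  have hc0 : 0 < c := by linarith
  have h1 : 1 / c ≤ 1 / 3.87 := one_div_le_one_div_of_le (by norm_num) hc
  have h2 : 0 < 1 / c := by positivity
  have e2 : 27 / 50 / c ^ 2 = 27 / 50 * (1 / c) ^ 2 := by
    field_simp
  have e4 : 2 / c = 2 * (1 / c) := by field_simp
  rw [e2]
  rw [e4] at ht
  set u := 1 / c with hu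
  have h3 : u ^ 2 ≤ (1 / 3.87) ^ 2 := pow_le_pow_left₀ h2.le h1 2
  have h5 : u ^ 2 * g ≤ (1 / 3.87) ^ 2 * 2.5 := mul_le_mul h3 hg hg0 (by norm_num)
  norm_num at h1 h5 ⊢
  nlinarith

variable {V : Type*} [Fintype V] [DecidableEq V] {G : SimpleGraph V} [DecidableRel G.Adj]

/-- The parameters at a point `q` with `3.87 D ≤ ‖q‖`. -/
theorem params {D : ℕ} (hD : 1 ≤ D) {q : ℂ} (hQ : 3.87 * (D : ℝ) ≤ ‖q‖) :
    q ≠ 0 ∧ 3.87 ≤ ‖q‖ / D ∧ ‖q‖⁻¹ = (D : ℝ)⁻¹ / (‖q‖ / D) ∧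
      (D : ℝ) * ‖q‖⁻¹ = 1 / (‖q‖ / D) := by
  have hD' : (1 : ℝ) ≤ D := by exact_mod_cast hD
  have hQ0 : 0 < ‖q‖ := by nlinarith
  refine ⟨norm_pos_iff.1 hQ0, ?_, ?_, ?_⟩
  · rw [le_div_iff₀ (by linarith)]; exact hQ
  · field_simp
  · field_simp

theorem nonzero_stepG {D : ℕ} (hD : 1 ≤ D) {q : ℂ} (hQ : 3.87 * (D : ℝ) ≤ ‖q‖)
    (hΔ : ∀ v : V, (nbr G univ v).card ≤ D + 1) {W : Finset V} {x : V} (hx : x ∈ W)
    (ih : GoodG G (27 / 50) (‖q‖ / D) D q (W.erase x)) : zv G q W ≠ 0 := by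
  obtain ⟨hq, hc, hinv, hinv2⟩ := params hD hQ
  have hD' : (1 : ℝ) ≤ D := by exact_mod_cast hD
  have hzpos : 0 < ‖zv G q (W.erase x)‖ := norm_pos_iff.2 ih.1
  have hQ0 : 0 < ‖q‖ := norm_pos_iff.2 hq
  have hdeg : ∀ w ∈ nbr G W x, (nbr G (W.erase x) w).card ≤ D := fun w hw =>
    nbr_erase_card_lt hx hw (nbr_card_le_univ W w (hΔ w))
  have hcard : (nbr G W x).card ≤ D + 1 := nbr_card_le_univ W x (hΔ x)
  have hcard' : ((nbr G W x).card : ℝ) ≤ 2 * D := by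
    have : ((nbr G W x).card : ℝ) ≤ D + 1 := by exact_mod_cast hcard
    linarith
  set c := ‖q‖ / D with hcdef
  have hc0 : 0 < c := by linarith
  have ht : ((nbr G W x).card : ℝ) * ‖q‖⁻¹ ≤ 2 / c := by
    calc ((nbr G W x).card : ℝ) * ‖q‖⁻¹ ≤ (2 * D) * ‖q‖⁻¹ := by gcongr
      _ = 2 * (D * ‖q‖⁻¹) := by ring
      _ = 2 / c := by rw [hinv2]; ring
  have h2c : 2 / c < 1 := by
    rw [div_lt_one hc0]; linarith
  have hl := lowerG (by norm_num) hc0.le hq hx ih hdeg (lt_of_le_of_lt ht h2c)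
  rw [sum_low D hc0 hinv] at hl
  have hg : hh D (nbr G W x).card ≤ 2.5 := (hh_mono D hcard).trans (hh_D1_le D hD)
  have hpos := numC hc ht hg (hh_nonneg D _)
  rw [← norm_pos_iff]
  refine lt_of_lt_of_le ?_ hl
  positivity

theorem lower_D {D : ℕ} (hD : 1 ≤ D) {q : ℂ} (hQ : 3.87 * (D : ℝ) ≤ ‖q‖)
    (hΔ : ∀ v : V, (nbr G univ v).card ≤ D + 1) {W : Finset V} {x : V} (hx : x ∈ W)
    (hdx : (nbr G W x).card ≤ D)
    (ih : GoodG G (27 / 50) (‖q‖ / D) D q (W.erase x)) :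
    ‖q‖ * (1 - 1 / (‖q‖ / D) - (27 / 50 / (‖q‖ / D) ^ 2) * hh D D) *
      ‖zv G q (W.erase x)‖ ≤ ‖zv G q W‖ := by
  obtain ⟨hq, hc, hinv, hinv2⟩ := params hD hQ
  have hQ0 : 0 < ‖q‖ := norm_pos_iff.2 hq
  have hdeg : ∀ w ∈ nbr G W x, (nbr G (W.erase x) w).card ≤ D := fun w hw =>
    nbr_erase_card_lt hx hw (nbr_card_le_univ W w (hΔ w))
  set c := ‖q‖ / D with hcdef
  have hc0 : 0 < c := by linarith
  have ht : ((nbr G W x).card : ℝ) * ‖q‖⁻¹ ≤ 1 / c := by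
    calc ((nbr G W x).card : ℝ) * ‖q‖⁻¹ ≤ D * ‖q‖⁻¹ := by gcongr
      _ = 1 / c := hinv2
  have h1c : 1 / c < 1 := by
    rw [div_lt_one hc0]; linarith
  have hl := lowerG (by norm_num) hc0.le hq hx ih hdeg (lt_of_le_of_lt ht h1c)
  rw [sum_low D hc0 hinv] at hl
  refine le_trans ?_ hl
  have hg := hh_mono D hdx
  gcongr

theorem dev_stepG {D : ℕ} (hD : 1 ≤ D) {q : ℂ} (hQ : 3.87 * (D : ℝ) ≤ ‖q‖)
    (hΔ : ∀ v : V, (nbr G univ v).card ≤ D + 1) {W : Finset V} {x : V} (hx : x ∈ W)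
    (ih : GoodG G (27 / 50) (‖q‖ / D) D q (W.erase x)) {S : Finset V}
    (hS : S ⊆ W.erase x) (hSn : S.Nonempty) (hI : Ind G (insert x S))
    (hd : ∀ s ∈ insert x S, (nbr G W s).card ≤ D) :
    ‖q ^ S.card * mv G q W (insert x S) - zv G q W‖ ≤
      rg (27 / 50) (‖q‖ / D) (S.card + 1) * ‖zv G q W‖ := by
  have hlow := lower_D hD hQ hΔ hx (hd x (Finset.mem_insert_self _ _)) ih
  obtain ⟨hq, hc, hinv, hinv2⟩ := params hD hQ
  have hQ0 : 0 < ‖q‖ := norm_pos_iff.2 hq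
  have hdeg : ∀ w ∈ nbr G W x, (nbr G (W.erase x) w).card ≤ D := fun w hw =>
    nbr_erase_card_lt hx hw (nbr_card_le_univ W w (hΔ w))
  have hdx : (nbr G W x).card ≤ D := hd x (Finset.mem_insert_self _ _)
  set c := ‖q‖ / D with hcdef
  have hc0 : 0 < c := by linarith
  have hc1 : 1 ≤ c := by linarith
  have hac : 1 ≤ 27 / 50 * c := by linarith
  have hup := upperG (by norm_num) hc0.le hq hx ih hdeg hS hSn hI hd
  refine hup.trans ?_
  have hX := X_le D hD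
  have hg := hh_D_le D hD
  have hg0 := hh_nonneg D D
  have hX' := X_mono D hdx
  have hg' := hh_mono D hdx
  have hZ : 0 ≤ ‖zv G q (W.erase x)‖ := norm_nonneg _
  set Z := ‖zv G q (W.erase x)‖ with hZdef
  set L := 1 - 1 / c - (27 / 50 / c ^ 2) * hh D D with hL
  obtain ⟨j, hj⟩ : ∃ j, S.card = j + 1 := ⟨S.card - 1, by
    have := Finset.card_pos.2 hSn; omega⟩
  rw [hj]
  match j with
  | 0 =>
    rw [sum_up1 D (by norm_num) hc1 hac hinv]
    have hB := numB hc hg hg0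
    have e1 : rg (27 / 50) c (0 + 1 + 1) = 27 / 50 := by simp [rg]
    rw [e1]
    have hd1 : ((nbr G W x).card : ℝ) * ‖q‖⁻¹ ≤ 1 / c := by
      calc ((nbr G W x).card : ℝ) * ‖q‖⁻¹ ≤ D * ‖q‖⁻¹ := by gcongr
        _ = 1 / c := hinv2
    have h3 : ((nbr G W x).card : ℝ) * ‖q‖⁻¹ + (27 / 50 / c + 27 / 50 / c ^ 2) *
        hh D (nbr G W x).card ≤ 27 / 50 * L := by
      refine le_trans ?_ hB
      gcongr
    calc ‖q‖ * (((nbr G W x).card : ℝ) * ‖q‖⁻¹ + (27 / 50 / c + 27 / 50 / c ^ 2) *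
        hh D (nbr G W x).card) * Z ≤ ‖q‖ * (27 / 50 * L) * Z := by gcongr
      _ = 27 / 50 * (‖q‖ * L * Z) := by ring
      _ ≤ _ := by gcongr
  | (k + 1) =>
    have e0 : k + 1 + 1 = k + 2 := rfl
    rw [e0, sum_up2 D hc1 hac hinv]
    have hA := numA hc hX hg hg0
    have e1 : rg (27 / 50) c (k + 2 + 1) = 27 / 50 * c ^ (k + 1) := rfl
    rw [e1]
    have hck : (1 : ℝ) ≤ c ^ k := one_le_pow₀ hc1
    have h3 : 27 / 50 * c ^ k * (1 + (D : ℝ)⁻¹) ^ (nbr G W x).card + (27 / 50 / c ^ 2) *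
        hh D (nbr G W x).card ≤ 27 / 50 * c ^ (k + 1) * L := by
      have h4 : 27 / 50 * c ^ k * (1 + (D : ℝ)⁻¹) ^ (nbr G W x).card + (27 / 50 / c ^ 2) *
        hh D (nbr G W x).card ≤ 27 / 50 * c ^ k * (1 + (D : ℝ)⁻¹) ^ D + (27 / 50 / c ^ 2) *
        hh D D := by gcongr
      refine h4.trans ?_
      have h5 : (27 / 50 / c ^ 2) * hh D D ≤ 27 / 50 * c ^ k * ((1 / c ^ 2) * hh D D) := by
        have : (27 / 50 / c ^ 2) * hh D D = 27 / 50 * 1 * ((1 / c ^ 2) * hh D D) := by ring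
        rw [this]
        gcongr
      have h6 : 27 / 50 * c ^ k * ((1 + (D : ℝ)⁻¹) ^ D + (1 / c ^ 2) * hh D D) ≤
          27 / 50 * c ^ k * (c * L) := by
        refine mul_le_mul_of_nonneg_left ?_ (by positivity)
        linarith
      calc 27 / 50 * c ^ k * (1 + (D : ℝ)⁻¹) ^ D + (27 / 50 / c ^ 2) * hh D D
          ≤ 27 / 50 * c ^ k * (1 + (D : ℝ)⁻¹) ^ D + 27 / 50 * c ^ k * ((1 / c ^ 2) * hh D D) := by
            linarith
        _ = 27 / 50 * c ^ k * ((1 + (D : ℝ)⁻¹) ^ D + (1 / c ^ 2) * hh D D) := by ring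
        _ ≤ 27 / 50 * c ^ k * (c * L) := h6
        _ = _ := by ring
    calc ‖q‖ * (27 / 50 * c ^ k * (1 + (D : ℝ)⁻¹) ^ (nbr G W x).card + (27 / 50 / c ^ 2) *
        hh D (nbr G W x).card) * Z ≤ ‖q‖ * (27 / 50 * c ^ (k + 1) * L) * Z :=
        mul_le_mul_of_nonneg_right (mul_le_mul_of_nonneg_left h3 (norm_nonneg _)) hZ
      _ = 27 / 50 * c ^ (k + 1) * (‖q‖ * L * Z) := by ring
      _ ≤ _ := mul_le_mul_of_nonneg_left hlow (by positivity)

theorem good_allG {D : ℕ} (hD : 1 ≤ D) {q : ℂ} (hQ : 3.87 * (D : ℝ) ≤ ‖q‖)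
    (hΔ : ∀ v : V, (nbr G univ v).card ≤ D + 1) (n : ℕ) :
    ∀ W : Finset V, W.card = n → GoodG G (27 / 50) (‖q‖ / D) D q W := by
  obtain ⟨hq, hc, hinv, hinv2⟩ := params hD hQ
  induction n with
  | zero =>
    intro W hW
    rw [Finset.card_eq_zero] at hW
    subst hW
    refine ⟨by rw [zv_empty G q hq]; exact one_ne_zero, fun S hS hSn => ?_⟩
    rw [Finset.subset_empty] at hS
    subst hS
    simp at hSn
  | succ n ih =>
    intro W hW
    have ih' : ∀ x ∈ W, GoodG G (27 / 50) (‖q‖ / D) D q (W.erase x) := fun x hx =>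
      ih _ (by rw [Finset.card_erase_of_mem hx, hW]; simp)
    have hWn : W.Nonempty := by rw [← Finset.card_pos, hW]; omega
    obtain ⟨x₀, hx₀⟩ := hWn
    refine ⟨nonzero_stepG hD hQ hΔ hx₀ (ih' x₀ hx₀), fun S hS hSn hI hd => ?_⟩
    obtain ⟨x, hx⟩ := hSn
    have hxW := hS hx
    have hSe : insert x (S.erase x) = S := Finset.insert_erase hx
    by_cases hSe' : (S.erase x).Nonempty
    · have h := dev_stepG hD hQ hΔ hxW (ih' x hxW) (S := S.erase x)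
        (Finset.erase_subset_erase x hS) hSe' (by rw [hSe]; exact hI) (by rw [hSe]; exact hd)
      rw [hSe] at h
      have hc : (S.erase x).card = S.card - 1 := Finset.card_erase_of_mem hx
      have hc' : S.card - 1 + 1 = S.card := Nat.sub_add_cancel (Finset.card_pos.2 ⟨x, hx⟩)
      rw [hc, hc'] at h
      exact h
    · rw [Finset.not_nonempty_iff_eq_empty] at hSe'
      rw [hSe'] at hSe
      have hS1 : S = {x} := by rw [← hSe]; rfl
      subst hS1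
      rw [mv_singleton G q hq W x hxW]
      simp [rg]

/-- Chromatic roots of a graph of maximum degree `Δ ≥ 2` lie in the open disc of radius
`3.87 (Δ - 1)`. -/
theorem general_bound (n : ℕ) (G : SimpleGraph (Fin n)) [DecidableRel G.Adj]
    (hΔ : 2 ≤ G.maxDegree) (P : Polynomial ℂ)
    (hP : ∀ k : ℕ, P.eval (k : ℂ) = (Nat.card (G.Coloring (Fin k)) : ℂ))
    (z : ℂ) (hz : P.IsRoot z) : ‖z‖ < 3.87 * ((G.maxDegree : ℝ) - 1) := by
  classical
  obtain ⟨D, hDdef⟩ : ∃ D, G.maxDegree = D + 1 := ⟨G.maxDegree - 1, by omega⟩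
  have hD : 1 ≤ D := by omega
  have hdeg : ∀ v : Fin n, (nbr G univ v).card ≤ D + 1 := fun v => by
    have h1 : (nbr G univ v).card = G.degree v := by
      rw [← SimpleGraph.card_neighborFinset_eq_degree]
      congr 1
      ext w
      simp [nbr]
    rw [h1, ← hDdef]
    exact G.degree_le_maxDegree v
  by_contra hcon
  push Not at hcon
  rw [hDdef] at hcon
  push_cast at hcon
  rw [add_sub_cancel_right] at hcon
  obtain ⟨hq, -, -, -⟩ := params hD hcon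
  have hne := (good_allG hD hcon hdeg _ univ rfl).1
  apply hne
  rw [← eval_eq_zv G P hP hq]
  exact hz

end Pool.Agent.MP_74a55f_co
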