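import Pool.Agent.Lib.MP_74a55f_co.Subcubic

set_option autoImplicit false
set_option linter.unusedSectionVars false

namespace Pool.Agent.MP_74a55f_co

open Finset

variable {V : Type*} [Fintype V] [DecidableEq V] (G : SimpleGraph V) [DecidableRel G.Adj]

instance decInd (S : Finset V) : Decidable (Ind G S) := by
  unfold Ind; infer_instance

/-- Independence polynomial of `G[N]`. -/
def ip (y : ℂ) (N : Finset V) : ℂ :=
  ∑ T ∈ N.powerset, if Ind G T then y ^ T.card else 0

theorem ip_empty (y : ℂ) : ip G y ∅ = 1 := by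
  unfold ip
  simp [Ind]

theorem ip_step (y : ℂ) (N : Finset V) (v : V) (hv : v ∉ N) :
    ip G y (insert v N) = ip G y N + y * ip G y (N.filter fun w => ¬ G.Adj v w) := by
  unfold ip
  rw [Finset.sum_powerset_insert hv]
  congr 1
  rw [Finset.mul_sum]
  have hsub : (N.filter fun w => ¬ G.Adj v w).powerset ⊆ N.powerset :=
    Finset.powerset_mono.2 (Finset.filter_subset _ _)
  rw [← Finset.sum_subset hsub]
  · refine Finset.sum_congr rfl fun T hT => ?_
    rw [Finset.mem_powerset] at hT
    have hvT : v ∉ T := fun h => hv (Finset.mem_of_mem_filter _ (hT h))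
    have hadj : ∀ w ∈ T, ¬ G.Adj v w := fun w hw => (Finset.mem_filter.1 (hT hw)).2
    have hiff : Ind G (insert v T) ↔ Ind G T := by
      constructor
      · exact fun h => h.mono (Finset.subset_insert _ _)
      · intro hS u hu w hw
        rcases Finset.mem_insert.1 hu with h | h
        · rcases Finset.mem_insert.1 hw with h' | h'
          · rw [h, h']; exact G.loopless.irrefl _
          · rw [h]; exact hadj w h'
        · rcases Finset.mem_insert.1 hw with h' | h'
          · rw [h']; exact fun h2 => hadj u h h2.symm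
          · exact hS u h w h'
    by_cases h : Ind G T
    · rw [if_pos h, if_pos (hiff.2 h), Finset.card_insert_of_notMem hvT, pow_succ]; ring
    · rw [if_neg h, if_neg (fun h' => h (hiff.1 h')), mul_zero]
  · intro T hT hT'
    rw [Finset.mem_powerset] at hT hT'
    have : ∃ w ∈ T, G.Adj v w := by
      by_contra hcon
      push Not at hcon
      exact hT' fun w hw => Finset.mem_filter.2 ⟨hT hw, hcon w hw⟩
    obtain ⟨w, hw, hvw⟩ := this
    rw [if_neg]
    intro hI
    exact hI v (Finset.mem_insert_self _ _) w (Finset.mem_insert_of_mem hw) hvw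

theorem ip_ratio (y : ℂ) (R : ℝ) (hR : 0 ≤ R) (hy : ‖y‖ ≤ R) (n : ℕ) :
    ∀ N : Finset V, N.card = n → (n : ℝ) * R < 1 → ∀ M : Finset V, M ⊆ N →
      (1 - n * R) * ‖ip G y M‖ ≤ (1 - M.card * R) * ‖ip G y N‖ := by
  induction n with
  | zero =>
    intro N hN _ M hM
    rw [Finset.card_eq_zero] at hN
    subst hN
    rw [Finset.subset_empty] at hM
    subst hM
    simp
  | succ n ih =>
    intro N hN hn M hM
    by_cases hMN : M = N
    · subst hMN
      rw [hN]
    · obtain ⟨v, hvN, hvM⟩ : ∃ v ∈ N, v ∉ M := by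
        by_contra hcon
        push Not at hcon
        exact hMN (Finset.Subset.antisymm hM hcon)
      have hn' : (n : ℝ) * R < 1 := by
        push_cast at hn
        nlinarith
      have hc : (N.erase v).card = n := by
        rw [Finset.card_erase_of_mem hvN, hN]; simp
      have ih1 := ih (N.erase v) hc hn' M (fun w hw => Finset.mem_erase.2
        ⟨fun h => hvM (h ▸ hw), hM hw⟩)
      set K := (N.erase v).filter fun w => ¬ G.Adj v w with hK
      have ih2 := ih (N.erase v) hc hn' K (Finset.filter_subset _ _)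
      have hstep : ip G y N = ip G y (N.erase v) + y * ip G y K := by
        have := ip_step G y (N.erase v) v (Finset.notMem_erase v N)
        rwa [Finset.insert_erase hvN] at this
      have h1 : ‖ip G y (N.erase v)‖ - R * ‖ip G y K‖ ≤ ‖ip G y N‖ := by
        rw [hstep]
        have h2 := norm_sub_norm_le (ip G y (N.erase v)) (-(y * ip G y K))
        rw [sub_neg_eq_add, norm_neg, norm_mul] at h2
        have h3 : ‖y‖ * ‖ip G y K‖ ≤ R * ‖ip G y K‖ :=
          mul_le_mul_of_nonneg_right hy (norm_nonneg _)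
        linarith
      have hpos : 0 < 1 - (n : ℝ) * R := by linarith
      have hKle : (1 - (n : ℝ) * R) * ‖ip G y K‖ ≤ ‖ip G y (N.erase v)‖ := by
        refine ih2.trans ?_
        have : (1 - (K.card : ℝ) * R) ≤ 1 := by
          have : (0 : ℝ) ≤ (K.card : ℝ) * R := by positivity
          linarith
        calc (1 - (K.card : ℝ) * R) * ‖ip G y (N.erase v)‖ ≤ 1 * ‖ip G y (N.erase v)‖ :=
              mul_le_mul_of_nonneg_right this (norm_nonneg _)
          _ = _ := one_mul _
      -- one vertex step
      have hv1 : (1 - ((n + 1 : ℕ) : ℝ) * R) * ‖ip G y (N.erase v)‖ ≤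
          (1 - (n : ℝ) * R) * ‖ip G y N‖ := by
        push_cast
        have h4 := mul_le_mul_of_nonneg_left h1 hpos.le
        nlinarith [mul_le_mul_of_nonneg_left hKle hR]
      have hpos' : 0 < 1 - ((n + 1 : ℕ) : ℝ) * R := by linarith
      have hM1 : 0 ≤ 1 - (M.card : ℝ) * R := by
        have : (M.card : ℝ) ≤ ((n + 1 : ℕ) : ℝ) := by
          rw [← hN]; exact_mod_cast Finset.card_le_card hM
        nlinarith
      have h5 := mul_le_mul_of_nonneg_left ih1 hpos'.le
      have h6 := mul_le_mul_of_nonneg_left hv1 hM1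
      have h7 : (1 - (n : ℝ) * R) * ((1 - ((n + 1 : ℕ) : ℝ) * R) * ‖ip G y M‖) ≤
          (1 - (n : ℝ) * R) * ((1 - (M.card : ℝ) * R) * ‖ip G y N‖) := by
        nlinarith
      exact le_of_mul_le_mul_left h7 hpos

theorem ip_lower (y : ℂ) (R : ℝ) (hR : 0 ≤ R) (hy : ‖y‖ ≤ R) (N : Finset V)
    (hN : (N.card : ℝ) * R < 1) : 1 - N.card * R ≤ ‖ip G y N‖ := by
  have := ip_ratio G y R hR hy N.card N rfl hN ∅ (Finset.empty_subset _)
  simpa [ip_empty] using this

end Pool.Agent.MP_74a55f_co
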