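import Mathlib

set_option autoImplicit false
set_option linter.unusedSectionVars false

/-!
Counting proper colourings of induced subgraphs in which a given set of vertices is
monochromatic, as polynomials in the number of colours.
-/

namespace Pool.Agent.MP_74a55f_co

open Finset

variable {V : Type*} [Fintype V] [DecidableEq V] (G : SimpleGraph V) [DecidableRel G.Adj]

/-- Partial proper colourings of `G` with colours in `Fin k`, coloured exactly on `W`. -/
def PC (W : Finset V) (k : ℕ) : Finset (V → Option (Fin k)) :=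
  Finset.univ.filter fun φ => (∀ v, φ v ≠ none ↔ v ∈ W) ∧
    ∀ u v, G.Adj u v → u ∈ W → v ∈ W → φ u ≠ φ v

/-- Neighbours of `x` inside `W`. -/
def nbr (W : Finset V) (x : V) : Finset V := W.filter fun w => G.Adj x w

/-- Number of pairs (colouring of `G[W]`, colour `c`) such that `S` is coloured `c`. -/
def cnt (W S : Finset V) (k : ℕ) : ℤ :=
  ∑ c : Fin k, ∑ φ ∈ PC G W k, ∏ s ∈ S, (if φ s = some c then (1 : ℤ) else 0)

theorem mem_PC {W : Finset V} {k : ℕ} {φ : V → Option (Fin k)} :
    φ ∈ PC G W k ↔ (∀ v, φ v ≠ none ↔ v ∈ W) ∧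
      ∀ u v, G.Adj u v → u ∈ W → v ∈ W → φ u ≠ φ v := by
  simp [PC]

theorem mem_nbr {W : Finset V} {x w : V} : w ∈ nbr G W x ↔ w ∈ W ∧ G.Adj x w := by
  simp [nbr]

theorem sum_PC_erase (W S : Finset V) (x : V) (hx : x ∈ W) (hxS : x ∉ S) (k : ℕ) (c : Fin k) :
    ∑ φ ∈ PC G W k, ∏ s ∈ insert x S, (if φ s = some c then (1 : ℤ) else 0) =
      ∑ φ ∈ PC G (W.erase x) k, (∏ s ∈ S, (if φ s = some c then (1 : ℤ) else 0)) *
        ∏ w ∈ nbr G W x, (1 - (if φ w = some c then (1 : ℤ) else 0)) := by
  classical
  have h1 : ∑ φ ∈ PC G W k, ∏ s ∈ insert x S, (if φ s = some c then (1 : ℤ) else 0) =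
      ∑ φ ∈ (PC G W k).filter (fun φ => φ x = some c),
        ∏ s ∈ S, (if φ s = some c then (1 : ℤ) else 0) := by
    rw [Finset.sum_filter]
    refine Finset.sum_congr rfl fun φ _ => ?_
    rw [Finset.prod_insert hxS]
    by_cases h : φ x = some c <;> simp [h]
  have h2 : ∑ φ ∈ PC G (W.erase x) k, (∏ s ∈ S, (if φ s = some c then (1 : ℤ) else 0)) *
        ∏ w ∈ nbr G W x, (1 - (if φ w = some c then (1 : ℤ) else 0)) =
      ∑ φ ∈ (PC G (W.erase x) k).filter (fun φ => ∀ w ∈ nbr G W x, φ w ≠ some c),
        ∏ s ∈ S, (if φ s = some c then (1 : ℤ) else 0) := by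
    rw [Finset.sum_filter]
    refine Finset.sum_congr rfl fun φ _ => ?_
    by_cases h : ∀ w ∈ nbr G W x, φ w ≠ some c
    · rw [if_pos h]
      have : ∏ w ∈ nbr G W x, (1 - (if φ w = some c then (1 : ℤ) else 0)) = 1 := by
        apply Finset.prod_eq_one
        intro w hw
        simp [h w hw]
      rw [this, mul_one]
    · rw [if_neg h]
      push Not at h
      obtain ⟨w, hw, hwc⟩ := h
      have : ∏ w ∈ nbr G W x, (1 - (if φ w = some c then (1 : ℤ) else 0)) = 0 := by
        apply Finset.prod_eq_zero hw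
        simp [hwc]
      rw [this, mul_zero]
  rw [h1, h2]
  refine Finset.sum_nbij' (fun φ => Function.update φ x none)
    (fun φ => Function.update φ x (some c)) ?_ ?_ ?_ ?_ ?_
  · intro φ hφ
    rw [Finset.mem_filter, mem_PC] at hφ ⊢
    obtain ⟨⟨hd, hp⟩, hc⟩ := hφ
    refine ⟨⟨?_, ?_⟩, ?_⟩
    · intro v
      by_cases hv : v = x
      · subst hv; simp
      · rw [Function.update_of_ne hv, Finset.mem_erase]
        rw [hd v]; simp [hv]
    · intro u v huv hu hv
      rw [Finset.mem_erase] at hu hv
      rw [Function.update_of_ne hu.1, Function.update_of_ne hv.1]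
      exact hp u v huv hu.2 hv.2
    · intro w hw
      rw [mem_nbr] at hw
      have hwx : w ≠ x := fun h => by
        subst h; exact G.loopless.irrefl _ hw.2
      rw [Function.update_of_ne hwx]
      intro hwc
      exact hp x w hw.2 hx hw.1 (by rw [hc, hwc])
  · intro φ hφ
    rw [Finset.mem_filter, mem_PC] at hφ ⊢
    obtain ⟨⟨hd, hp⟩, hc⟩ := hφ
    refine ⟨⟨?_, ?_⟩, ?_⟩
    · intro v
      by_cases hv : v = x
      · subst hv; simp [hx]
      · rw [Function.update_of_ne hv]
        rw [hd v, Finset.mem_erase]; simp [hv]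
    · intro u v huv hu hv
      by_cases hux : u = x
      · subst hux
        have hvu : v ≠ u := fun h => by subst h; exact G.loopless.irrefl _ huv
        rw [Function.update_self, Function.update_of_ne hvu]
        exact fun h => hc v (by rw [mem_nbr]; exact ⟨hv, huv⟩) h.symm
      · by_cases hvx : v = x
        · subst hvx
          rw [Function.update_self, Function.update_of_ne hux]
          exact fun h => hc u (by rw [mem_nbr]; exact ⟨hu, huv.symm⟩) h
        · rw [Function.update_of_ne hux, Function.update_of_ne hvx]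
          exact hp u v huv (Finset.mem_erase.2 ⟨hux, hu⟩) (Finset.mem_erase.2 ⟨hvx, hv⟩)
    · simp
  · intro φ hφ
    rw [Finset.mem_filter, mem_PC] at hφ
    rw [Function.update_idem, ← hφ.2, Function.update_eq_self]
  · intro φ hφ
    rw [Finset.mem_filter, mem_PC] at hφ
    have : φ x = none := by
      have := hφ.1.1 x
      simp at this
      exact this
    simp only [Function.update_idem]
    rw [← this, Function.update_eq_self]
  · intro φ hφ
    refine Finset.prod_congr rfl fun s hs => ?_
    have hsx : s ≠ x := fun h => hxS (h ▸ hs)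
    simp only [Function.update_of_ne hsx]

theorem cnt_insert (W S : Finset V) (x : V) (hx : x ∈ W) (hxS : x ∉ S) (k : ℕ) :
    cnt G W (insert x S) k =
      ∑ T ∈ (nbr G W x).powerset, (-1) ^ T.card * cnt G (W.erase x) (S ∪ T) k := by
  classical
  unfold cnt
  simp_rw [Finset.mul_sum]
  conv_rhs => rw [Finset.sum_comm]
  refine Finset.sum_congr rfl fun c _ => ?_
  rw [sum_PC_erase G W S x hx hxS k c]
  conv_rhs => rw [Finset.sum_comm]
  refine Finset.sum_congr rfl fun φ _ => ?_
  have hexp : ∏ w ∈ nbr G W x, (1 - (if φ w = some c then (1 : ℤ) else 0)) =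
      ∑ T ∈ (nbr G W x).powerset, (-1) ^ T.card *
        ∏ w ∈ T, (if φ w = some c then (1 : ℤ) else 0) := by
    have := Finset.prod_add (fun w => -(if φ w = some c then (1 : ℤ) else 0)) (fun _ => (1 : ℤ))
      (nbr G W x)
    simp only [Finset.prod_const_one, mul_one] at this
    have h3 : ∀ w, (1 : ℤ) - (if φ w = some c then (1 : ℤ) else 0) =
        -(if φ w = some c then (1 : ℤ) else 0) + 1 := fun w => by ring
    simp_rw [h3]
    rw [this]
    refine Finset.sum_congr rfl fun T _ => ?_
    rw [Finset.prod_neg]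
  rw [hexp, Finset.mul_sum]
  refine Finset.sum_congr rfl fun T _ => ?_
  have hunion : ∏ s ∈ S ∪ T, (if φ s = some c then (1 : ℤ) else 0) =
      (∏ s ∈ S, (if φ s = some c then (1 : ℤ) else 0)) *
        ∏ s ∈ T, (if φ s = some c then (1 : ℤ) else 0) := by
    simp only [Finset.prod_ite_zero, Finset.prod_const_one]
    by_cases h1 : ∀ s ∈ S, φ s = some c
    · by_cases h2 : ∀ s ∈ T, φ s = some c
      · have h3 : ∀ s ∈ S ∪ T, φ s = some c := by
          intro s hs
          rcases Finset.mem_union.1 hs with h | h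
          · exact h1 s h
          · exact h2 s h
        rw [if_pos h1, if_pos h2, if_pos h3]; ring
      · have h3 : ¬ ∀ s ∈ S ∪ T, φ s = some c := fun h =>
          h2 fun s hs => h s (Finset.mem_union_right _ hs)
        rw [if_neg h2, if_neg h3]; ring
    · have h3 : ¬ ∀ s ∈ S ∪ T, φ s = some c := fun h =>
        h1 fun s hs => h s (Finset.mem_union_left _ hs)
      rw [if_neg h1, if_neg h3]; ring
  rw [hunion]
  ring

theorem cnt_singleton (W : Finset V) (x : V) (hx : x ∈ W) (k : ℕ) :
    cnt G W {x} k = ((PC G W k).card : ℤ) := by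
  classical
  unfold cnt
  rw [Finset.sum_comm]
  simp only [Finset.prod_singleton]
  rw [Finset.card_eq_sum_ones]
  push_cast
  refine Finset.sum_congr rfl fun φ hφ => ?_
  rw [mem_PC] at hφ
  have h := (hφ.1 x).2 hx
  obtain ⟨c, hc⟩ := Option.ne_none_iff_exists'.1 h
  rw [hc]
  simp

theorem cnt_empty (W : Finset V) (k : ℕ) :
    cnt G W ∅ k = (k : ℤ) * ((PC G W k).card : ℤ) := by
  classical
  unfold cnt
  simp

theorem cnt_not_subset (W S : Finset V) (h : ¬ S ⊆ W) (k : ℕ) : cnt G W S k = 0 := by
  classical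
  unfold cnt
  rw [Finset.not_subset] at h
  obtain ⟨s, hs, hsW⟩ := h
  refine Finset.sum_eq_zero fun c _ => Finset.sum_eq_zero fun φ hφ => ?_
  refine Finset.prod_eq_zero hs ?_
  rw [mem_PC] at hφ
  have : φ s = none := by
    have := hφ.1 s
    by_contra h
    exact hsW (this.1 h)
  simp [this]

theorem cnt_adj (W S : Finset V) (u v : V) (hu : u ∈ S) (hv : v ∈ S) (huv : G.Adj u v) (k : ℕ) :
    cnt G W S k = 0 := by
  classical
  by_cases h : S ⊆ W
  · unfold cnt
    refine Finset.sum_eq_zero fun c _ => Finset.sum_eq_zero fun φ hφ => ?_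
    rw [mem_PC] at hφ
    have hne := hφ.2 u v huv (h hu) (h hv)
    by_cases h1 : φ u = some c
    · refine Finset.prod_eq_zero hv ?_
      have : φ v ≠ some c := fun h2 => hne (by rw [h1, h2])
      simp [this]
    · refine Finset.prod_eq_zero hu ?_
      simp [h1]
  · exact cnt_not_subset G W S h k

theorem PC_empty_card (k : ℕ) : (PC G ∅ k).card = 1 := by
  classical
  have : PC G ∅ k = {fun _ => none} := by
    ext φ
    rw [mem_PC]
    simp only [Finset.notMem_empty, iff_false, not_not, Finset.mem_singleton]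
    constructor
    · rintro ⟨h, -⟩
      funext v
      exact h v
    · rintro rfl
      simp
  rw [this]; simp

/-- A polynomial counting `cnt`. -/
theorem exists_poly (n : ℕ) : ∀ W : Finset V, W.card = n → ∀ S : Finset V,
    ∃ p : Polynomial ℂ, ∀ k : ℕ, p.eval (k : ℂ) = (cnt G W S k : ℂ) := by
  classical
  induction n with
  | zero =>
    intro W hW S
    have hW' : W = ∅ := Finset.card_eq_zero.1 hW
    subst hW'
    by_cases hS : S = ∅
    · subst hS
      refine ⟨Polynomial.X, fun k => ?_⟩
      rw [cnt_empty, PC_empty_card]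
      simp
    · refine ⟨0, fun k => ?_⟩
      rw [cnt_not_subset G ∅ S (by simpa using hS)]
      simp
  | succ n ih =>
    intro W hW
    have key : ∀ S : Finset V, S.Nonempty →
        ∃ p : Polynomial ℂ, ∀ k : ℕ, p.eval (k : ℂ) = (cnt G W S k : ℂ) := by
      intro S hS
      by_cases hSW : S ⊆ W
      · obtain ⟨x, hx⟩ := hS
        have hxW := hSW hx
        have hc : (W.erase x).card = n := by rw [Finset.card_erase_of_mem hxW, hW]; simp
        choose f hf using ih (W.erase x) hc
        refine ⟨∑ T ∈ (nbr G W x).powerset, (-1) ^ T.card * f (S.erase x ∪ T), fun k => ?_⟩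
        rw [← Finset.insert_erase hx, cnt_insert G W (S.erase x) x hxW (Finset.notMem_erase x S)]
        rw [Polynomial.eval_finsetSum]
        push_cast
        refine Finset.sum_congr rfl fun T _ => ?_
        rw [Polynomial.eval_mul, hf, Polynomial.eval_pow]
        simp
      · refine ⟨0, fun k => ?_⟩
        rw [cnt_not_subset G W S hSW]
        simp
    intro S
    by_cases hS : S.Nonempty
    · exact key S hS
    · rw [Finset.not_nonempty_iff_eq_empty] at hS
      subst hS
      have hWne : W.Nonempty := by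
        rw [← Finset.card_pos, hW]; omega
      obtain ⟨x, hx⟩ := hWne
      obtain ⟨p, hp⟩ := key {x} ⟨x, by simp⟩
      refine ⟨Polynomial.X * p, fun k => ?_⟩
      rw [Polynomial.eval_mul, hp, cnt_singleton G W x hx, cnt_empty]
      simp

/-- The polynomial counting colourings of `G[W]` with `S` monochromatic (with the extra colour
`c` when `S` is empty). -/
noncomputable def mp (W S : Finset V) : Polynomial ℂ :=
  (exists_poly G W.card W rfl S).choose

theorem mp_eval (W S : Finset V) (k : ℕ) : (mp G W S).eval (k : ℂ) = (cnt G W S k : ℂ) :=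
  (exists_poly G W.card W rfl S).choose_spec k

theorem poly_ext {p r : Polynomial ℂ} (h : ∀ k : ℕ, p.eval (k : ℂ) = r.eval (k : ℂ)) : p = r := by
  apply Polynomial.eq_of_infinite_eval_eq
  apply Set.infinite_of_injective_forall_mem (f := fun k : ℕ => (k : ℂ)) Nat.cast_injective
  intro k
  exact h k

theorem mp_insert (W S : Finset V) (x : V) (hx : x ∈ W) (hxS : x ∉ S) :
    mp G W (insert x S) =
      ∑ T ∈ (nbr G W x).powerset, (-1) ^ T.card * mp G (W.erase x) (S ∪ T) := by
  apply poly_ext
  intro k
  rw [mp_eval, cnt_insert G W S x hx hxS, Polynomial.eval_finsetSum]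
  push_cast
  refine Finset.sum_congr rfl fun T _ => ?_
  rw [Polynomial.eval_mul, mp_eval, Polynomial.eval_pow]
  simp

theorem mp_empty (W : Finset V) (x : V) (hx : x ∈ W) :
    mp G W ∅ = Polynomial.X * mp G W {x} := by
  apply poly_ext
  intro k
  rw [Polynomial.eval_mul, mp_eval, mp_eval, cnt_singleton G W x hx, cnt_empty]
  simp

theorem mp_adj (W S : Finset V) (u v : V) (hu : u ∈ S) (hv : v ∈ S) (huv : G.Adj u v) :
    mp G W S = 0 := by
  apply poly_ext
  intro k
  rw [mp_eval, cnt_adj G W S u v hu hv huv]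
  simp

theorem mp_empty_empty : mp G ∅ ∅ = Polynomial.X := by
  apply poly_ext
  intro k
  rw [mp_eval, cnt_empty, PC_empty_card]
  simp

/-- Link with the number of colourings. -/
theorem card_coloring (k : ℕ) :
    Nat.card (G.Coloring (Fin k)) = (PC G Finset.univ k).card := by
  classical
  rw [Nat.card_eq_fintype_card, ← Fintype.card_coe]
  refine Fintype.card_congr ⟨fun φ => ⟨fun v => some (φ v), ?_⟩,
    fun ψ => ⟨fun v => (ψ.1 v).get ?_, ?_⟩, ?_, ?_⟩
  · rw [mem_PC]
    refine ⟨fun v => by simp, fun u v huv _ _ h => ?_⟩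
    exact φ.valid huv (Option.some_injective _ h)
  · have := ψ.2
    rw [mem_PC] at this
    exact Option.isSome_iff_ne_none.2 ((this.1 v).2 (Finset.mem_univ v))
  · intro u v huv
    have := ψ.2
    rw [mem_PC] at this
    have hne := this.2 u v huv (Finset.mem_univ _) (Finset.mem_univ _)
    intro h
    apply hne
    exact Option.get_inj.1 h
  · intro φ
    ext v
    simp
  · intro ψ
    ext1
    funext v
    simp

end Pool.Agent.MP_74a55f_co
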