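import Pool.Agent.Lib.MP_74a55f_co.Subcubic

set_option autoImplicit false
set_option linter.unusedSectionVars false

namespace Pool.Agent.MP_74a55f_co

open Finset

variable {V : Type*} [Fintype V] [DecidableEq V] {G : SimpleGraph V} [DecidableRel G.Adj]

theorem ind_insert {a : V} {S : Finset V} (hS : Ind G S) (ha : ∀ s ∈ S, ¬ G.Adj a s) :
    Ind G (insert a S) := by
  intro u hu v hv
  rcases Finset.mem_insert.1 hu with h | h
  · rcases Finset.mem_insert.1 hv with h' | h'
    · rw [h, h']; exact G.loopless.irrefl _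
    · rw [h]; exact ha v h'
  · rcases Finset.mem_insert.1 hv with h' | h'
    · rw [h']; exact fun h2 => ha u h h2.symm
    · exact hS u h v h'

theorem lower1 {q : ℂ} (hq : q ≠ 0) {W : Finset V} {x w : V} (hx : x ∈ W)
    (hN : nbr G W x = {w}) : (‖q‖ - 1) * ‖zv G q (W.erase x)‖ ≤ ‖zv G q W‖ := by
  rw [zv_step1 G q hq W x w hx hN, norm_mul]
  gcongr
  have := norm_sub_norm_le q 1
  simpa using this

theorem lower2adj {q : ℂ} (hq : q ≠ 0) {W : Finset V} {x w₁ w₂ : V} (hx : x ∈ W)
    (h12 : w₁ ≠ w₂) (hN : nbr G W x = {w₁, w₂}) (hadj : G.Adj w₁ w₂) :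
    (‖q‖ - 2) * ‖zv G q (W.erase x)‖ ≤ ‖zv G q W‖ := by
  rw [zv_step2 G q hq W x w₁ w₂ hx h12 hN, mv_adj G q _ {w₁, w₂} w₁ w₂ (by simp) (by simp) hadj,
    add_zero, norm_mul]
  gcongr
  have := norm_sub_norm_le q 2
  simpa using this

theorem lower2 {q : ℂ} (hQ : 6 ≤ ‖q‖) {W : Finset V} {x w₁ w₂ : V} (hx : x ∈ W)
    (h12 : w₁ ≠ w₂) (hN : nbr G W x = {w₁, w₂})
    (hp : ‖q * mv G q (W.erase x) {w₁, w₂} - zv G q (W.erase x)‖ ≤
      (3 / 5) * ‖zv G q (W.erase x)‖) :
    ((‖q‖ - 1) ^ 2 - 3 / 5) * ‖zv G q (W.erase x)‖ ≤ ‖q‖ * ‖zv G q W‖ := by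
  have hq : q ≠ 0 := by
    intro h; rw [h, norm_zero] at hQ; norm_num at hQ
  have e : q * zv G q W = (q - 1) ^ 2 * zv G q (W.erase x) +
      (q * mv G q (W.erase x) {w₁, w₂} - zv G q (W.erase x)) := by
    rw [zv_step2 G q hq W x w₁ w₂ hx h12 hN]; ring
  rw [← norm_mul, e]
  have h1 := norm_sub_norm_le ((q - 1) ^ 2 * zv G q (W.erase x))
    (-(q * mv G q (W.erase x) {w₁, w₂} - zv G q (W.erase x)))
  rw [sub_neg_eq_add, norm_neg, norm_mul, norm_pow] at h1
  have h2 : ‖q‖ - 1 ≤ ‖q - 1‖ := by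
    have := norm_sub_norm_le q 1
    simpa using this
  have h3 : (‖q‖ - 1) ^ 2 ≤ ‖q - 1‖ ^ 2 := by
    apply pow_le_pow_left₀ (by linarith) h2
  have h4 : (‖q‖ - 1) ^ 2 * ‖zv G q (W.erase x)‖ ≤ ‖q - 1‖ ^ 2 * ‖zv G q (W.erase x)‖ :=
    mul_le_mul_of_nonneg_right h3 (norm_nonneg _)
  nlinarith [h1, h4, hp]

/-- Non-vanishing at a vertex with at most three neighbours. -/
theorem nonzero_step {q : ℂ} (hQ : 6 ≤ ‖q‖) (hΔ : ∀ v : V, (nbr G univ v).card ≤ 3)
    {W : Finset V} {x : V} (hx : x ∈ W) (ih : Good G q (W.erase x)) : zv G q W ≠ 0 := by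
  have hq : q ≠ 0 := by
    intro h; rw [h, norm_zero] at hQ; norm_num at hQ
  have hz := ih.1
  have hzpos : 0 < ‖zv G q (W.erase x)‖ := norm_pos_iff.2 hz
  have hdeg : ∀ w ∈ nbr G W x, (nbr G (W.erase x) w).card ≤ 2 := fun w hw =>
    nbr_erase_card_lt hx hw (nbr_card_le_univ W w (hΔ w))
  have hcard : (nbr G W x).card ≤ 3 := nbr_card_le_univ W x (hΔ x)
  rw [← norm_pos_iff]
  interval_cases hc : (nbr G W x).card
  · rw [Finset.card_eq_zero] at hc
    rw [zv_step0 G q hq W x hx hc, norm_mul]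
    positivity
  · obtain ⟨w, hN⟩ := Finset.card_eq_one.1 hc
    have := lower1 hq hx hN
    nlinarith
  · obtain ⟨w₁, w₂, h12, hN⟩ := Finset.card_eq_two.1 hc
    by_cases hadj : G.Adj w₁ w₂
    · have := lower2adj hq hx h12 hN hadj
      nlinarith
    · have hw₁ : w₁ ∈ nbr G W x := by rw [hN]; simp
      have hw₂ : w₂ ∈ nbr G W x := by rw [hN]; simp
      have hp := ih.pair (mem_erase_of_nbr G hw₁) (mem_erase_of_nbr G hw₂) h12 hadj
        (hdeg _ hw₁) (hdeg _ hw₂)
      have := lower2 hQ hx h12 hN hp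
      have h5 : 0 < ((‖q‖ - 1) ^ 2 - 3 / 5) * ‖zv G q (W.erase x)‖ := by
        apply mul_pos _ hzpos
        nlinarith
      by_contra hcon
      have : ‖zv G q W‖ ≤ 0 := not_lt.1 hcon
      have : ‖q‖ * ‖zv G q W‖ ≤ 0 := by nlinarith
      linarith
  · obtain ⟨w₁, w₂, w₃, h12, h13, h23, hN⟩ := Finset.card_eq_three.1 hc
    have hw₁ : w₁ ∈ nbr G W x := by rw [hN]; simp
    have hw₂ : w₂ ∈ nbr G W x := by rw [hN]; simp
    have hw₃ : w₃ ∈ nbr G W x := by rw [hN]; simp
    have p12 := ih.pair_le (mem_erase_of_nbr G hw₁) (mem_erase_of_nbr G hw₂) h12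
      (hdeg _ hw₁) (hdeg _ hw₂)
    have p13 := ih.pair_le (mem_erase_of_nbr G hw₁) (mem_erase_of_nbr G hw₃) h13
      (hdeg _ hw₁) (hdeg _ hw₃)
    have p23 := ih.pair_le (mem_erase_of_nbr G hw₂) (mem_erase_of_nbr G hw₃) h23
      (hdeg _ hw₂) (hdeg _ hw₃)
    have p123 := ih.triple_le (mem_erase_of_nbr G hw₁) (mem_erase_of_nbr G hw₂)
      (mem_erase_of_nbr G hw₃) h12 h13 h23 (hdeg _ hw₁) (hdeg _ hw₂) (hdeg _ hw₃)
    have e : q ^ 2 * zv G q W = q ^ 2 * (q - 3) * zv G q (W.erase x) -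
        (-(q * (q * mv G q (W.erase x) {w₁, w₂}) + q * (q * mv G q (W.erase x) {w₁, w₃}) +
        q * (q * mv G q (W.erase x) {w₂, w₃}) - q ^ 2 * mv G q (W.erase x) {w₁, w₂, w₃})) := by
      rw [zv_step3 G q hq W x w₁ w₂ w₃ hx h12 h13 h23 hN]; ring
    have h1 := norm_sub_norm_le (q ^ 2 * (q - 3) * zv G q (W.erase x))
        (-(q * (q * mv G q (W.erase x) {w₁, w₂}) + q * (q * mv G q (W.erase x) {w₁, w₃}) +
        q * (q * mv G q (W.erase x) {w₂, w₃}) - q ^ 2 * mv G q (W.erase x) {w₁, w₂, w₃}))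
    rw [← e, norm_neg] at h1
    have h2 : ‖q * (q * mv G q (W.erase x) {w₁, w₂}) + q * (q * mv G q (W.erase x) {w₁, w₃}) +
        q * (q * mv G q (W.erase x) {w₂, w₃}) - q ^ 2 * mv G q (W.erase x) {w₁, w₂, w₃}‖ ≤
        ‖q‖ * ‖q * mv G q (W.erase x) {w₁, w₂}‖ + ‖q‖ * ‖q * mv G q (W.erase x) {w₁, w₃}‖ +
        ‖q‖ * ‖q * mv G q (W.erase x) {w₂, w₃}‖ + ‖q ^ 2 * mv G q (W.erase x) {w₁, w₂, w₃}‖ := by
      rw [← norm_mul, ← norm_mul, ← norm_mul]
      refine (norm_sub_le _ _).trans ?_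
      gcongr
      refine (norm_add_le _ _).trans ?_
      gcongr
      exact norm_add_le _ _
    have h3 : ‖q‖ ^ 2 * (‖q‖ - 3) * ‖zv G q (W.erase x)‖ ≤
        ‖q ^ 2 * (q - 3) * zv G q (W.erase x)‖ := by
      rw [norm_mul, norm_mul, norm_pow]
      gcongr
      have := norm_sub_norm_le q 3
      simpa using this
    have h1' : ‖q ^ 2 * zv G q W‖ = ‖q‖ ^ 2 * ‖zv G q W‖ := by rw [norm_mul, norm_pow]
    rw [h1'] at h1
    have h4 : 0 < (‖q‖ ^ 2 * (‖q‖ - 3) - 3 * (‖q‖ * (8 / 5)) - 4) *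
        ‖zv G q (W.erase x)‖ := by
      apply mul_pos _ hzpos
      nlinarith [sq_nonneg ‖q‖, mul_nonneg (sub_nonneg.2 hQ) (sq_nonneg ‖q‖)]
    have h5 : 0 < ‖q‖ ^ 2 * ‖zv G q W‖ := by
      have a1 := mul_le_mul_of_nonneg_left p12 (norm_nonneg q)
      have a2 := mul_le_mul_of_nonneg_left p13 (norm_nonneg q)
      have a3 := mul_le_mul_of_nonneg_left p23 (norm_nonneg q)
      nlinarith
    by_contra hcon
    have : ‖zv G q W‖ ≤ 0 := not_lt.1 hcon
    have : ‖q‖ ^ 2 * ‖zv G q W‖ ≤ 0 := by nlinarith [sq_nonneg ‖q‖]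
    linarith

theorem num2 {Q : ℝ} (hQ : 6 ≤ Q) : Q * 2 + 8 / 5 ≤ (3 / 5) * ((Q - 1) ^ 2 - 3 / 5) := by
  nlinarith

theorem num2' {Q : ℝ} (hQ : 6 ≤ Q) :
    Q * (6 / 5) + 18 / 5 ≤ (3 / 5) * ((Q - 1) ^ 2 - 3 / 5) := by
  nlinarith

theorem num3 {Q r : ℝ} (hQ : 6 ≤ Q) (hr : 3 / 5 ≤ r) :
    Q ^ 2 * r + Q * (10 * r) + (25 * r + 3 / 5) ≤ 5 * r * ((Q - 1) ^ 2 - 3 / 5) := by
  nlinarith [mul_nonneg (sub_nonneg.2 hQ) (by linarith : (0 : ℝ) ≤ Q + 1),
    mul_nonneg (mul_nonneg (sub_nonneg.2 hQ) (by linarith : (0 : ℝ) ≤ Q + 1))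
      (by linarith : (0 : ℝ) ≤ r)]

/-- Deviation estimate, one more element `x` in the monochromatic set. -/
theorem dev_step {q : ℂ} (hQ : 6 ≤ ‖q‖) (hΔ : ∀ v : V, (nbr G univ v).card ≤ 3)
    {W : Finset V} {x : V} (hx : x ∈ W) (ih : Good G q (W.erase x)) {S : Finset V}
    (hS : S ⊆ W.erase x) (hSn : S.Nonempty) (hI : Ind G (insert x S))
    (hd : ∀ s ∈ insert x S, (nbr G W s).card ≤ 2) :
    ‖q ^ S.card * mv G q W (insert x S) - zv G q W‖ ≤ rho (S.card + 1) * ‖zv G q W‖ := by
  have hq : q ≠ 0 := by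
    intro h; rw [h, norm_zero] at hQ; norm_num at hQ
  have hzpos : 0 < ‖zv G q (W.erase x)‖ := norm_pos_iff.2 ih.1
  have hxS : x ∉ S := fun h => by simpa using hS h
  have hdeg : ∀ w ∈ nbr G W x, (nbr G (W.erase x) w).card ≤ 2 := fun w hw =>
    nbr_erase_card_lt hx hw (nbr_card_le_univ W w (hΔ w))
  have hdS : ∀ s ∈ S, (nbr G (W.erase x) s).card ≤ 2 := fun s hs =>
    nbr_erase_card (hd s (Finset.mem_insert_of_mem hs))
  have hIS : Ind G S := hI.mono (Finset.subset_insert _ _)
  have hnS : ∀ w ∈ nbr G W x, w ∉ S := fun w hw hwS =>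
    hI x (Finset.mem_insert_self _ _) w (Finset.mem_insert_of_mem hwS)
      ((mem_nbr G).1 hw).2
  have hcard : (nbr G W x).card ≤ 2 := hd x (Finset.mem_insert_self _ _)
  obtain ⟨j, hj⟩ : ∃ j, S.card = j + 1 := ⟨S.card - 1, by
    have := Finset.card_pos.2 hSn; omega⟩
  -- deviation of `S` itself
  have hD : ‖q ^ j * mv G q (W.erase x) S - zv G q (W.erase x)‖ ≤
      rho (j + 1) * ‖zv G q (W.erase x)‖ := by
    have := ih.2 S hS hSn hIS hdS
    rw [hj] at this
    simpa using this
  rw [hj]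
  set Z := ‖zv G q (W.erase x)‖ with hZ
  -- deviations of `insert w S`
  have hE : ∀ w ∈ nbr G W x,
      (Ind G (insert w S) ∧ ‖q ^ (j + 1) * mv G q (W.erase x) (insert w S) -
        zv G q (W.erase x)‖ ≤ rho (j + 2) * Z) ∨
      mv G q (W.erase x) (insert w S) = 0 := by
    intro w hw
    by_cases h : Ind G (insert w S)
    · left
      refine ⟨h, ?_⟩
      have := ih.add hS hdS (mem_erase_of_nbr G hw) (hnS w hw) (hdeg w hw) h
      rwa [hj] at this
    · right
      exact not_ind_mv q _ _ h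
  have hE' : ∀ w ∈ nbr G W x, ‖q ^ (j + 1) * mv G q (W.erase x) (insert w S) -
        zv G q (W.erase x)‖ ≤ max (rho (j + 2)) 1 * Z := by
    intro w hw
    rcases hE w hw with ⟨-, h⟩ | h
    · exact h.trans (mul_le_mul_of_nonneg_right (le_max_left _ _) hzpos.le)
    · rw [h, mul_zero, zero_sub, norm_neg]
      calc ‖zv G q (W.erase x)‖ = 1 * Z := by rw [one_mul]
        _ ≤ _ := mul_le_mul_of_nonneg_right (le_max_right _ _) hzpos.le
  interval_cases hc : (nbr G W x).card
  · rw [Finset.card_eq_zero] at hc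
    rw [mv_insert0 G q W S x hx hxS hc, zv_step0 G q hq W x hx hc]
    have e : q ^ (j + 1) * mv G q (W.erase x) S - q * zv G q (W.erase x) =
        q * (q ^ j * mv G q (W.erase x) S - zv G q (W.erase x)) := by ring
    rw [e, norm_mul, norm_mul]
    have hr : rho (j + 1) ≤ rho (j + 1 + 1) := by
      match j with
      | 0 => norm_num [rho]
      | (j + 1) =>
        have := rho_succ j
        have h2 := rho_ge j
        simp only [Nat.add_assoc] at this h2 ⊢
        norm_num at this h2 ⊢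
        linarith
    calc ‖q‖ * ‖q ^ j * mv G q (W.erase x) S - zv G q (W.erase x)‖
        ≤ ‖q‖ * (rho (j + 1) * Z) := by gcongr
      _ ≤ ‖q‖ * (rho (j + 1 + 1) * Z) := by gcongr
      _ = _ := by ring
  · obtain ⟨w, hN⟩ := Finset.card_eq_one.1 hc
    have hw : w ∈ nbr G W x := by rw [hN]; simp
    have hl := lower1 hq hx hN
    have hE1 := hE' w hw
    have e : q ^ (j + 1) * mv G q W (insert x S) - zv G q W =
        q * (q ^ j * mv G q (W.erase x) S - zv G q (W.erase x)) -
        (q ^ (j + 1) * mv G q (W.erase x) (insert w S) - zv G q (W.erase x)) := by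
      rw [mv_insert1 G q W S x w hx hxS hN, zv_step1 G q hq W x w hx hN]; ring
    rw [e]
    refine (norm_sub_le _ _).trans ?_
    rw [norm_mul]
    have h1 : ‖q‖ * ‖q ^ j * mv G q (W.erase x) S - zv G q (W.erase x)‖ ≤
        ‖q‖ * (rho (j + 1) * Z) := by gcongr
    match j, hj, hD, hE1, e, h1 with
    | 0, hj, hD, hE1, e, h1 =>
      have r1 : rho (0 + 1) = 0 := rfl
      have r2 : rho (0 + 2) = 3 / 5 := rho_two
      rw [r2] at hE1
      rw [r1] at h1
      have r3 : rho (0 + 1 + 1) = 3 / 5 := rho_two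
      rw [r3]
      have : max (3 / 5 : ℝ) 1 = 1 := max_eq_right (by norm_num)
      rw [this] at hE1
      nlinarith
    | (i + 1), hj, hD, hE1, e, h1 =>
      have r2 := rho_succ i
      have r3 := rho_ge i
      have e1 : rho (i + 1 + 1) = rho (i + 2) := rfl
      have e2 : rho (i + 1 + 2) = 5 * rho (i + 2) := r2
      have e3 : rho (i + 1 + 1 + 1) = 5 * rho (i + 2) := r2
      rw [e2] at hE1
      rw [e1] at h1
      rw [e3]
      have : max (5 * rho (i + 2)) 1 = 5 * rho (i + 2) := max_eq_left (by linarith)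
      rw [this] at hE1
      have h6 : (0 : ℝ) ≤ rho (i + 2) * Z := mul_nonneg (by linarith) hzpos.le
      have h7 : 5 * rho (i + 2) * ((‖q‖ - 1) * Z) ≤ 5 * rho (i + 2) * ‖zv G q W‖ :=
        mul_le_mul_of_nonneg_left hl (by linarith)
      nlinarith
  · obtain ⟨w₁, w₂, h12, hN⟩ := Finset.card_eq_two.1 hc
    have hw₁ : w₁ ∈ nbr G W x := by rw [hN]; simp
    have hw₂ : w₂ ∈ nbr G W x := by rw [hN]; simp
    have hE1 := hE' w₁ hw₁
    have hE2 := hE' w₂ hw₂
    have h1 : ‖q‖ * ‖q ^ j * mv G q (W.erase x) S - zv G q (W.erase x)‖ ≤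
        ‖q‖ * (rho (j + 1) * Z) := by gcongr
    by_cases hadj : G.Adj w₁ w₂
    · have hl := lower2adj hq hx h12 hN hadj
      have e : q ^ (j + 1) * mv G q W (insert x S) - zv G q W =
          q * (q ^ j * mv G q (W.erase x) S - zv G q (W.erase x)) -
          (q ^ (j + 1) * mv G q (W.erase x) (insert w₁ S) - zv G q (W.erase x)) -
          (q ^ (j + 1) * mv G q (W.erase x) (insert w₂ S) - zv G q (W.erase x)) := by
        rw [mv_insert2 G q W S x w₁ w₂ hx hxS h12 hN, zv_step2 G q hq W x w₁ w₂ hx h12 hN,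
          mv_adj G q _ {w₁, w₂} w₁ w₂ (by simp) (by simp) hadj,
          mv_adj G q _ (insert w₁ (insert w₂ S)) w₁ w₂ (by simp) (by simp) hadj]
        ring
      rw [e]
      refine (norm_sub_le _ _).trans ?_
      have h0 := norm_sub_le (q * (q ^ j * mv G q (W.erase x) S - zv G q (W.erase x)))
        (q ^ (j + 1) * mv G q (W.erase x) (insert w₁ S) - zv G q (W.erase x))
      rw [norm_mul] at h0
      match j, hj, hD, hE1, hE2, e, h1, h0 with
      | 0, hj, hD, hE1, hE2, e, h1, h0 =>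
        have r1 : rho (0 + 1) = 0 := rfl
        have r2 : rho (0 + 2) = 3 / 5 := rho_two
        have : max (3 / 5 : ℝ) 1 = 1 := max_eq_right (by norm_num)
        rw [r2, this] at hE1 hE2
        rw [r1] at h1
        have r3 : rho (0 + 1 + 1) = 3 / 5 := rho_two
        rw [r3]
        nlinarith
      | (i + 1), hj, hD, hE1, hE2, e, h1, h0 =>
        have r2 := rho_succ i
        have r3 := rho_ge i
        have e1 : rho (i + 1 + 1) = rho (i + 2) := rfl
        have e2 : rho (i + 1 + 2) = 5 * rho (i + 2) := r2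
        have e3 : rho (i + 1 + 1 + 1) = 5 * rho (i + 2) := r2
        have : max (5 * rho (i + 2)) 1 = 5 * rho (i + 2) := max_eq_left (by linarith)
        rw [e2, this] at hE1 hE2
        rw [e1] at h1
        rw [e3]
        have h6 : (0 : ℝ) ≤ rho (i + 2) * Z := mul_nonneg (by linarith) hzpos.le
        have h7 : 5 * rho (i + 2) * ((‖q‖ - 2) * Z) ≤ 5 * rho (i + 2) * ‖zv G q W‖ :=
          mul_le_mul_of_nonneg_left hl (by linarith)
        nlinarith
    · have hp := ih.pair (mem_erase_of_nbr G hw₁) (mem_erase_of_nbr G hw₂) h12 hadj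
        (hdeg _ hw₁) (hdeg _ hw₂)
      have hl := lower2 hQ hx h12 hN hp
      have hple := ih.pair_le (mem_erase_of_nbr G hw₁) (mem_erase_of_nbr G hw₂) h12
        (hdeg _ hw₁) (hdeg _ hw₂)
      -- the last term
      set E12 := q ^ (j + 2) * mv G q (W.erase x) (insert w₁ (insert w₂ S)) -
        q * mv G q (W.erase x) {w₁, w₂} with hE12
      have hE12a : mv G q (W.erase x) (insert w₁ (insert w₂ S)) = 0 → ‖E12‖ ≤ (8 / 5) * Z := by
        intro h
        rw [hE12, h, mul_zero, zero_sub, norm_neg]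
        exact hple
      have hE12b : Ind G (insert w₁ (insert w₂ S)) → ‖E12‖ ≤ (rho (j + 3) + 3 / 5) * Z := by
        intro h
        have h2 : Ind G (insert w₂ S) := h.mono (Finset.subset_insert _ _)
        have hS2 : insert w₂ S ⊆ W.erase x := Finset.insert_subset (mem_erase_of_nbr G hw₂) hS
        have hd2 : ∀ s ∈ insert w₂ S, (nbr G (W.erase x) s).card ≤ 2 := by
          intro s hs
          rcases Finset.mem_insert.1 hs with rfl | hs
          · exact hdeg _ hw₂
          · exact hdS s hs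
        have hn : w₁ ∉ insert w₂ S := by
          intro hm
          rcases Finset.mem_insert.1 hm with h' | h'
          · exact h12 h'
          · exact hnS _ hw₁ h'
        have h3 := ih.add hS2 hd2 (mem_erase_of_nbr G hw₁) hn (hdeg _ hw₁) h
        rw [Finset.card_insert_of_notMem (hnS _ hw₂), hj] at h3
        have e4 : E12 = (q ^ (j + 2) * mv G q (W.erase x) (insert w₁ (insert w₂ S)) -
            zv G q (W.erase x)) - (q * mv G q (W.erase x) {w₁, w₂} - zv G q (W.erase x)) := by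
          rw [hE12]; ring
        rw [e4]
        refine (norm_sub_le _ _).trans ?_
        have h3' : ‖q ^ (j + 2) * mv G q (W.erase x) (insert w₁ (insert w₂ S)) -
            zv G q (W.erase x)‖ ≤ rho (j + 3) * Z := h3
        linarith
      have e : q * (q ^ (j + 1) * mv G q W (insert x S) - zv G q W) =
          q * (q * (q ^ j * mv G q (W.erase x) S - zv G q (W.erase x))) -
          q * (q ^ (j + 1) * mv G q (W.erase x) (insert w₁ S) - zv G q (W.erase x)) -
          q * (q ^ (j + 1) * mv G q (W.erase x) (insert w₂ S) - zv G q (W.erase x)) + E12 := by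
        rw [mv_insert2 G q W S x w₁ w₂ hx hxS h12 hN, zv_step2 G q hq W x w₁ w₂ hx h12 hN, hE12]
        ring
      have hqpos : 0 < ‖q‖ := by linarith
      set D := ‖q ^ j * mv G q (W.erase x) S - zv G q (W.erase x)‖ with hDdef
      set e1 := ‖q ^ (j + 1) * mv G q (W.erase x) (insert w₁ S) - zv G q (W.erase x)‖ with he1
      set e2 := ‖q ^ (j + 1) * mv G q (W.erase x) (insert w₂ S) - zv G q (W.erase x)‖ with he2
      have hbound : ‖q‖ * ‖q ^ (j + 1) * mv G q W (insert x S) - zv G q W‖ ≤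
          ‖q‖ * (‖q‖ * D) + ‖q‖ * e1 + ‖q‖ * e2 + ‖E12‖ := by
        rw [← norm_mul, e]
        refine (norm_add_le _ _).trans ?_
        gcongr
        refine (norm_sub_le _ _).trans ?_
        rw [norm_mul q (q ^ (j + 1) * mv G q (W.erase x) (insert w₂ S) - zv G q (W.erase x))]
        gcongr
        refine (norm_sub_le _ _).trans ?_
        rw [norm_mul, norm_mul, norm_mul]
      have hgoal : ‖q‖ * ‖q ^ (j + 1) * mv G q W (insert x S) - zv G q W‖ ≤
          ‖q‖ * (rho (j + 1 + 1) * ‖zv G q W‖) := by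
        refine hbound.trans ?_
        have hqD : ‖q‖ * (‖q‖ * D) ≤ ‖q‖ ^ 2 * rho (j + 1) * Z := by
          have := mul_le_mul_of_nonneg_left hD (by positivity : 0 ≤ ‖q‖ * ‖q‖)
          nlinarith
        have hl' : rho (j + 1 + 1) * (((‖q‖ - 1) ^ 2 - 3 / 5) * Z) ≤
            rho (j + 1 + 1) * (‖q‖ * ‖zv G q W‖) :=
          mul_le_mul_of_nonneg_left hl (rho_nonneg _)
        have hre : ‖q‖ * (rho (j + 1 + 1) * ‖zv G q W‖) =
            rho (j + 1 + 1) * (‖q‖ * ‖zv G q W‖) := by ring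
        rw [hre]
        refine le_trans ?_ hl'
        have hb1 : Ind G (insert w₁ S) → e1 ≤ rho (j + 2) * Z := by
          intro h
          have := ih.add hS hdS (mem_erase_of_nbr G hw₁) (hnS w₁ hw₁) (hdeg w₁ hw₁) h
          rwa [hj] at this
        have hb2 : Ind G (insert w₂ S) → e2 ≤ rho (j + 2) * Z := by
          intro h
          have := ih.add hS hdS (mem_erase_of_nbr G hw₂) (hnS w₂ hw₂) (hdeg w₂ hw₂) h
          rwa [hj] at this
        clear_value D e1 e2 E12 Z
        clear e hbound hl hl' hre h1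
        match j, hE1, hE2, hE12a, hE12b, hqD, hb1, hb2 with
        | 0, hE1, hE2, hE12a, hE12b, hqD, hb1, hb2 =>
          have r1 : rho (0 + 1) = 0 := rfl
          have r2 : rho (0 + 2) = 3 / 5 := rho_two
          have r3 : rho (0 + 1 + 1) = 3 / 5 := rho_two
          have r4 : rho (0 + 3) = 3 := by norm_num [rho]
          have : max (3 / 5 : ℝ) 1 = 1 := max_eq_right (by norm_num)
          rw [r2, this] at hE1 hE2
          rw [r1] at hqD
          rw [r3]
          rw [r4] at hE12b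
          have n2 := mul_le_mul_of_nonneg_right (num2 hQ) hzpos.le
          have n2' := mul_le_mul_of_nonneg_right (num2' hQ) hzpos.le
          have a1 := mul_le_mul_of_nonneg_left hE1 hqpos.le
          have a2 := mul_le_mul_of_nonneg_left hE2 hqpos.le
          by_cases h1 : Ind G (insert w₁ S)
          · by_cases h2 : Ind G (insert w₂ S)
            · have hI12 : Ind G (insert w₁ (insert w₂ S)) := by
                refine ind_insert h2 fun s hs => ?_
                rcases Finset.mem_insert.1 hs with h | h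
                · rw [h]; exact hadj
                · exact h1 w₁ (Finset.mem_insert_self _ _) s (Finset.mem_insert_of_mem h)
              have b12 := hE12b hI12
              have b1 : e1 ≤ 3 / 5 * Z := by
                have := hb1 h1
                rwa [r2] at this
              have b2 : e2 ≤ 3 / 5 * Z := by
                have := hb2 h2
                rwa [r2] at this
              have a1' := mul_le_mul_of_nonneg_left b1 hqpos.le
              have a2' := mul_le_mul_of_nonneg_left b2 hqpos.le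
              linarith
            · have b12 := hE12a (not_ind_mv q _ _ fun h => h2 (h.mono (Finset.subset_insert _ _)))
              linarith
          · have b12 := hE12a (not_ind_mv q _ _ fun h => h1 (h.mono (by
              intro v hv
              rcases Finset.mem_insert.1 hv with rfl | hv
              · simp
              · simp [hv])))
            linarith
        | (i + 1), hE1, hE2, hE12a, hE12b, hqD, hb1, hb2 =>
          have r2 := rho_succ i
          have r3 := rho_ge i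
          have r4 := rho_succ (i + 1)
          have e1' : rho (i + 1 + 1) = rho (i + 2) := rfl
          have e2' : rho (i + 1 + 2) = 5 * rho (i + 2) := r2
          have e3' : rho (i + 1 + 1 + 1) = 5 * rho (i + 2) := r2
          have e4' : rho (i + 1 + 3) = 25 * rho (i + 2) := by
            rw [r4, show i + 1 + 2 = i + 3 from rfl, r2]; ring
          have : max (5 * rho (i + 2)) 1 = 5 * rho (i + 2) := max_eq_left (by linarith)
          rw [e2', this] at hE1 hE2
          rw [e1'] at hqD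
          rw [e3']
          have b12 : ‖E12‖ ≤ (25 * rho (i + 2) + 3 / 5) * Z := by
            by_cases h : Ind G (insert w₁ (insert w₂ S))
            · have := hE12b h
              rwa [e4'] at this
            · have := hE12a (not_ind_mv q _ _ h)
              refine this.trans (mul_le_mul_of_nonneg_right ?_ hzpos.le)
              linarith
          have n3 := mul_le_mul_of_nonneg_right (num3 hQ r3) hzpos.le
          have a1 := mul_le_mul_of_nonneg_left hE1 hqpos.le
          have a2 := mul_le_mul_of_nonneg_left hE2 hqpos.le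
          linarith
      exact le_of_mul_le_mul_left hgoal hqpos

theorem good_all {q : ℂ} (hQ : 6 ≤ ‖q‖) (hΔ : ∀ v : V, (nbr G univ v).card ≤ 3) (n : ℕ) :
    ∀ W : Finset V, W.card = n → Good G q W := by
  have hq : q ≠ 0 := by
    intro h; rw [h, norm_zero] at hQ; norm_num at hQ
  induction n with
  | zero =>
    intro W hW
    rw [Finset.card_eq_zero] at hW
    subst hW
    refine ⟨by rw [zv_empty G q hq]; exact one_ne_zero, fun S hS hSn => ?_⟩
    rw [Finset.subset_empty] at hS
    subst hS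
    simp at hSn
  | succ n ih =>
    intro W hW
    have ih' : ∀ x ∈ W, Good G q (W.erase x) := fun x hx =>
      ih _ (by rw [Finset.card_erase_of_mem hx, hW]; simp)
    have hWn : W.Nonempty := by rw [← Finset.card_pos, hW]; omega
    obtain ⟨x₀, hx₀⟩ := hWn
    refine ⟨nonzero_step hQ hΔ hx₀ (ih' x₀ hx₀), fun S hS hSn hI hd => ?_⟩
    obtain ⟨x, hx⟩ := hSn
    have hxW := hS hx
    have hSe : insert x (S.erase x) = S := Finset.insert_erase hx
    by_cases hSe' : (S.erase x).Nonempty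
    · have h := dev_step hQ hΔ hxW (ih' x hxW) (S := S.erase x)
        (Finset.erase_subset_erase x hS) hSe' (by rw [hSe]; exact hI) (by rw [hSe]; exact hd)
      rw [hSe] at h
      have hc : (S.erase x).card = S.card - 1 := Finset.card_erase_of_mem hx
      have hc' : S.card - 1 + 1 = S.card := Nat.sub_add_cancel (Finset.card_pos.2 ⟨x, hx⟩)
      rw [hc, hc'] at h
      exact h
    · rw [Finset.not_nonempty_iff_eq_empty] at hSe'
      rw [hSe'] at hSe
      have hS1 : S = {x} := by rw [← hSe]; rfl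
      subst hS1
      rw [mv_singleton G q hq W x hxW]
      simp [rho]

end Pool.Agent.MP_74a55f_co
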