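import Pool.Agent.Lib.MP_74a55f_co.Mono

set_option autoImplicit false
set_option linter.unusedSectionVars false

namespace Pool.Agent.MP_74a55f_co

open Finset

variable {V : Type*} [Fintype V] [DecidableEq V] (G : SimpleGraph V) [DecidableRel G.Adj]

/-- Value of the monochromatic counting polynomial at `q`. -/
noncomputable def mv (q : ℂ) (W S : Finset V) : ℂ := (mp G W S).eval q

/-- Value of the chromatic polynomial of `G[W]` at `q`. -/
noncomputable def zv (q : ℂ) (W : Finset V) : ℂ := mv G q W ∅ / q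

theorem mv_singleton (q : ℂ) (hq : q ≠ 0) (W : Finset V) (x : V) (hx : x ∈ W) :
    mv G q W {x} = zv G q W := by
  unfold zv mv
  rw [mp_empty G W x hx, Polynomial.eval_mul, Polynomial.eval_X]
  field_simp

theorem mv_empty (q : ℂ) (hq : q ≠ 0) (W : Finset V) : mv G q W ∅ = q * zv G q W := by
  unfold zv
  field_simp

theorem zv_empty (q : ℂ) (hq : q ≠ 0) : zv G q ∅ = 1 := by
  unfold zv mv
  rw [mp_empty_empty]
  simp [hq]

theorem mv_adj (q : ℂ) (W S : Finset V) (u v : V) (hu : u ∈ S) (hv : v ∈ S) (huv : G.Adj u v) :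
    mv G q W S = 0 := by
  unfold mv
  rw [mp_adj G W S u v hu hv huv]; simp

theorem mv_insert (q : ℂ) (W S : Finset V) (x : V) (hx : x ∈ W) (hxS : x ∉ S) :
    mv G q W (insert x S) =
      ∑ T ∈ (nbr G W x).powerset, (-1) ^ T.card * mv G q (W.erase x) (S ∪ T) := by
  unfold mv
  rw [mp_insert G W S x hx hxS, Polynomial.eval_finsetSum]
  refine Finset.sum_congr rfl fun T _ => ?_
  simp

theorem mv_insert0 (q : ℂ) (W S : Finset V) (x : V) (hx : x ∈ W) (hxS : x ∉ S)
    (hN : nbr G W x = ∅) :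
    mv G q W (insert x S) = mv G q (W.erase x) S := by
  rw [mv_insert G q W S x hx hxS, hN]
  simp

theorem sum_pow1 (f : Finset V → ℂ) (a : V) :
    ∑ T ∈ ({a} : Finset V).powerset, f T = f ∅ + f {a} := by
  rw [show ({a} : Finset V) = insert a ∅ from rfl, Finset.sum_powerset_insert (by simp)]
  simp

theorem sum_pow2 (f : Finset V → ℂ) (a b : V) (h : a ≠ b) :
    ∑ T ∈ ({a, b} : Finset V).powerset, f T = f ∅ + f {b} + f {a} + f {a, b} := by
  rw [Finset.sum_powerset_insert (by simp [h]), sum_pow1, sum_pow1 (fun t => f (insert a t))]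
  simp only [add_assoc]
  rfl

theorem sum_pow3 (f : Finset V → ℂ) (a b c : V) (h : a ≠ b) (h' : a ≠ c) (h'' : b ≠ c) :
    ∑ T ∈ ({a, b, c} : Finset V).powerset, f T = f ∅ + f {c} + f {b} + f {b, c} + f {a} +
      f {a, c} + f {a, b} + f {a, b, c} := by
  rw [Finset.sum_powerset_insert (by simp [h, h']), sum_pow2 _ _ _ h'',
    sum_pow2 (fun t => f (insert a t)) _ _ h'']
  simp only [add_assoc]
  rfl

theorem mv_insert1 (q : ℂ) (W S : Finset V) (x w : V) (hx : x ∈ W) (hxS : x ∉ S)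
    (hN : nbr G W x = {w}) :
    mv G q W (insert x S) = mv G q (W.erase x) S - mv G q (W.erase x) (insert w S) := by
  rw [mv_insert G q W S x hx hxS, hN, sum_pow1]
  have e1 : (S ∪ {w} : Finset V) = insert w S := by ext; simp
  simp only [e1, Finset.card_empty, Finset.union_empty, Finset.card_singleton]
  ring

theorem mv_insert2 (q : ℂ) (W S : Finset V) (x w₁ w₂ : V) (hx : x ∈ W) (hxS : x ∉ S)
    (h12 : w₁ ≠ w₂) (hN : nbr G W x = {w₁, w₂}) :
    mv G q W (insert x S) = mv G q (W.erase x) S - mv G q (W.erase x) (insert w₁ S) -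
      mv G q (W.erase x) (insert w₂ S) + mv G q (W.erase x) (insert w₁ (insert w₂ S)) := by
  rw [mv_insert G q W S x hx hxS, hN, sum_pow2 _ _ _ h12]
  have e1 : (S ∪ {w₁} : Finset V) = insert w₁ S := by ext; simp
  have e2 : (S ∪ {w₂} : Finset V) = insert w₂ S := by ext; simp
  have e3 : (S ∪ {w₁, w₂} : Finset V) = insert w₁ (insert w₂ S) := by ext; simp
  have c3 : ({w₁, w₂} : Finset V).card = 2 := Finset.card_pair h12
  simp only [e1, e2, e3, c3, Finset.card_empty, Finset.union_empty, Finset.card_singleton]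
  ring

theorem zv_step0 (q : ℂ) (hq : q ≠ 0) (W : Finset V) (x : V) (hx : x ∈ W)
    (hN : nbr G W x = ∅) : zv G q W = q * zv G q (W.erase x) := by
  rw [← mv_singleton G q hq W x hx, ← mv_empty G q hq]
  exact mv_insert0 G q W ∅ x hx (by simp) hN

theorem mem_erase_of_nbr {W : Finset V} {x w : V} (h : w ∈ nbr G W x) : w ∈ W.erase x := by
  rw [mem_nbr] at h
  exact Finset.mem_erase.2 ⟨fun h' => by subst h'; exact G.loopless.irrefl _ h.2, h.1⟩

theorem zv_step1 (q : ℂ) (hq : q ≠ 0) (W : Finset V) (x w : V) (hx : x ∈ W)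
    (hN : nbr G W x = {w}) : zv G q W = (q - 1) * zv G q (W.erase x) := by
  have hw : w ∈ W.erase x := mem_erase_of_nbr G (by rw [hN]; simp)
  rw [← mv_singleton G q hq W x hx]
  have := mv_insert1 G q W ∅ x w hx (by simp) hN
  rw [show (insert x ∅ : Finset V) = {x} from rfl, show (insert w ∅ : Finset V) = {w} from rfl,
    mv_empty G q hq, mv_singleton G q hq _ w hw] at this
  rw [this]; ring

theorem zv_step2 (q : ℂ) (hq : q ≠ 0) (W : Finset V) (x w₁ w₂ : V) (hx : x ∈ W)
    (h12 : w₁ ≠ w₂) (hN : nbr G W x = {w₁, w₂}) :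
    zv G q W = (q - 2) * zv G q (W.erase x) + mv G q (W.erase x) {w₁, w₂} := by
  have hw₁ : w₁ ∈ W.erase x := mem_erase_of_nbr G (by rw [hN]; simp)
  have hw₂ : w₂ ∈ W.erase x := mem_erase_of_nbr G (by rw [hN]; simp)
  rw [← mv_singleton G q hq W x hx]
  have := mv_insert2 G q W ∅ x w₁ w₂ hx (by simp) h12 hN
  rw [show (insert x ∅ : Finset V) = {x} from rfl, show (insert w₁ ∅ : Finset V) = {w₁} from rfl,
    show (insert w₂ ∅ : Finset V) = {w₂} from rfl,
    mv_empty G q hq, mv_singleton G q hq _ w₁ hw₁, mv_singleton G q hq _ w₂ hw₂] at this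
  rw [this]; ring

theorem zv_step3 (q : ℂ) (hq : q ≠ 0) (W : Finset V) (x w₁ w₂ w₃ : V) (hx : x ∈ W)
    (h12 : w₁ ≠ w₂) (h13 : w₁ ≠ w₃) (h23 : w₂ ≠ w₃) (hN : nbr G W x = {w₁, w₂, w₃}) :
    zv G q W = (q - 3) * zv G q (W.erase x) + mv G q (W.erase x) {w₁, w₂} +
      mv G q (W.erase x) {w₁, w₃} + mv G q (W.erase x) {w₂, w₃} -
      mv G q (W.erase x) {w₁, w₂, w₃} := by
  have hw₁ : w₁ ∈ W.erase x := mem_erase_of_nbr G (by rw [hN]; simp)
  have hw₂ : w₂ ∈ W.erase x := mem_erase_of_nbr G (by rw [hN]; simp)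
  have hw₃ : w₃ ∈ W.erase x := mem_erase_of_nbr G (by rw [hN]; simp)
  rw [← mv_singleton G q hq W x hx]
  have := mv_insert G q W ∅ x hx (by simp)
  rw [hN, sum_pow3 _ _ _ _ h12 h13 h23] at this
  have c3 : ({w₁, w₂, w₃} : Finset V).card = 3 := by
    rw [Finset.card_eq_three]; exact ⟨w₁, w₂, w₃, h12, h13, h23, rfl⟩
  simp only [Finset.card_pair h12, Finset.card_pair h13, Finset.card_pair h23, c3,
    Finset.card_empty, Finset.empty_union, Finset.card_singleton] at this
  rw [mv_empty G q hq, mv_singleton G q hq _ w₁ hw₁, mv_singleton G q hq _ w₂ hw₂,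
    mv_singleton G q hq _ w₃ hw₃] at this
  rw [show ({x} : Finset V) = insert x ∅ from rfl, this]; ring


/-- `S` is independent in `G`. -/
def Ind (S : Finset V) : Prop := ∀ u ∈ S, ∀ v ∈ S, ¬ G.Adj u v

/-- The deviations allowed for a monochromatic set of `k` vertices. -/
noncomputable def rho : ℕ → ℝ
  | 0 => 0
  | 1 => 0
  | (k + 2) => (3 / 5) * 5 ^ k

/-- The inductive statement for the vertex set `W`. -/
def Good (q : ℂ) (W : Finset V) : Prop :=
  zv G q W ≠ 0 ∧ ∀ S : Finset V, S ⊆ W → S.Nonempty → Ind G S →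
    (∀ s ∈ S, (nbr G W s).card ≤ 2) →
    ‖q ^ (S.card - 1) * mv G q W S - zv G q W‖ ≤ rho S.card * ‖zv G q W‖

variable {G}

theorem Ind.mono {S T : Finset V} (h : Ind G T) (hST : S ⊆ T) : Ind G S :=
  fun u hu v hv => h u (hST hu) v (hST hv)

theorem not_ind_mv (q : ℂ) (W S : Finset V) (h : ¬ Ind G S) : mv G q W S = 0 := by
  unfold Ind at h
  push Not at h
  obtain ⟨u, hu, v, hv, huv⟩ := h
  exact mv_adj G q W S u v hu hv huv

theorem nbr_erase_card {W : Finset V} {x s : V} {n : ℕ} (h : (nbr G W s).card ≤ n) :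
    (nbr G (W.erase x) s).card ≤ n := by
  refine le_trans (Finset.card_le_card ?_) h
  intro v hv
  rw [mem_nbr] at hv ⊢
  exact ⟨Finset.mem_of_mem_erase hv.1, hv.2⟩

theorem nbr_erase_card_lt {W : Finset V} {x w : V} (hx : x ∈ W) (hw : w ∈ nbr G W x) {n : ℕ}
    (h : (nbr G W w).card ≤ n + 1) : (nbr G (W.erase x) w).card ≤ n := by
  have hsub : nbr G (W.erase x) w ⊂ nbr G W w := by
    rw [Finset.ssubset_iff_of_subset]
    · refine ⟨x, ?_, ?_⟩
      · rw [mem_nbr] at hw ⊢
        exact ⟨hx, hw.2.symm⟩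
      · rw [mem_nbr]
        simp
    · intro v hv
      rw [mem_nbr] at hv ⊢
      exact ⟨Finset.mem_of_mem_erase hv.1, hv.2⟩
  have := Finset.card_lt_card hsub
  omega

theorem nbr_card_le_univ (W : Finset V) (w : V) {n : ℕ} (h : (nbr G univ w).card ≤ n) :
    (nbr G W w).card ≤ n := by
  refine le_trans (Finset.card_le_card ?_) h
  intro v hv
  rw [mem_nbr] at hv ⊢
  exact ⟨Finset.mem_univ _, hv.2⟩

/-- Pair estimate for non-adjacent vertices. -/
theorem Good.pair {q : ℂ} {W : Finset V} (hW : Good G q W) {a b : V} (ha : a ∈ W) (hb : b ∈ W)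
    (hab : a ≠ b) (hadj : ¬ G.Adj a b) (hda : (nbr G W a).card ≤ 2) (hdb : (nbr G W b).card ≤ 2) :
    ‖q * mv G q W {a, b} - zv G q W‖ ≤ (3 / 5) * ‖zv G q W‖ := by
  have h := hW.2 {a, b} (by
      intro v hv
      simp only [Finset.mem_insert, Finset.mem_singleton] at hv
      rcases hv with rfl | rfl <;> assumption) ⟨a, by simp⟩ (by
      intro u hu v hv
      simp only [Finset.mem_insert, Finset.mem_singleton] at hu hv
      rcases hu with rfl | rfl <;> rcases hv with rfl | rfl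
      · exact G.loopless.irrefl _
      · exact hadj
      · exact fun h => hadj h.symm
      · exact G.loopless.irrefl _) (by
      intro s hs
      simp only [Finset.mem_insert, Finset.mem_singleton] at hs
      rcases hs with rfl | rfl <;> assumption)
  rw [Finset.card_pair hab] at h
  simpa [rho] using h

theorem Good.pair_le {q : ℂ} {W : Finset V} (hW : Good G q W) {a b : V} (ha : a ∈ W) (hb : b ∈ W)
    (hab : a ≠ b) (hda : (nbr G W a).card ≤ 2) (hdb : (nbr G W b).card ≤ 2) :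
    ‖q * mv G q W {a, b}‖ ≤ (8 / 5) * ‖zv G q W‖ := by
  by_cases hadj : G.Adj a b
  · rw [mv_adj G q W {a, b} a b (by simp) (by simp) hadj]
    simp
  · have h := hW.pair ha hb hab hadj hda hdb
    calc ‖q * mv G q W {a, b}‖ = ‖(q * mv G q W {a, b} - zv G q W) + zv G q W‖ := by ring_nf
      _ ≤ ‖q * mv G q W {a, b} - zv G q W‖ + ‖zv G q W‖ := norm_add_le _ _
      _ ≤ (8 / 5) * ‖zv G q W‖ := by linarith

theorem Good.triple_le {q : ℂ} {W : Finset V} (hW : Good G q W) {a b c : V} (ha : a ∈ W)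
    (hb : b ∈ W) (hc : c ∈ W) (hab : a ≠ b) (hac : a ≠ c) (hbc : b ≠ c)
    (hda : (nbr G W a).card ≤ 2) (hdb : (nbr G W b).card ≤ 2) (hdc : (nbr G W c).card ≤ 2) :
    ‖q ^ 2 * mv G q W {a, b, c}‖ ≤ 4 * ‖zv G q W‖ := by
  by_cases hI : Ind G ({a, b, c} : Finset V)
  · have h := hW.2 {a, b, c} (by
      intro v hv
      simp only [Finset.mem_insert, Finset.mem_singleton] at hv
      rcases hv with rfl | rfl | rfl <;> assumption) ⟨a, by simp⟩ hI (by
      intro s hs
      simp only [Finset.mem_insert, Finset.mem_singleton] at hs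
      rcases hs with rfl | rfl | rfl <;> assumption)
    have c3 : ({a, b, c} : Finset V).card = 3 := by
      rw [Finset.card_eq_three]; exact ⟨a, b, c, hab, hac, hbc, rfl⟩
    rw [c3] at h
    have h' : ‖q ^ 2 * mv G q W {a, b, c} - zv G q W‖ ≤ 3 * ‖zv G q W‖ := by
      have : rho 3 = 3 := by norm_num [rho]
      rw [this] at h
      simpa using h
    calc ‖q ^ 2 * mv G q W {a, b, c}‖
        = ‖(q ^ 2 * mv G q W {a, b, c} - zv G q W) + zv G q W‖ := by ring_nf
      _ ≤ ‖q ^ 2 * mv G q W {a, b, c} - zv G q W‖ + ‖zv G q W‖ := norm_add_le _ _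
      _ ≤ 4 * ‖zv G q W‖ := by linarith
  · rw [not_ind_mv q W _ hI]
    simp

/-- Adding a vertex `w` to the monochromatic set `S`. -/
theorem Good.add {q : ℂ} {W : Finset V} (hW : Good G q W) {S : Finset V} (hS : S ⊆ W)
    (hdS : ∀ s ∈ S, (nbr G W s).card ≤ 2) {w : V} (hw : w ∈ W) (hwS : w ∉ S)
    (hdw : (nbr G W w).card ≤ 2) (hI : Ind G (insert w S)) :
    ‖q ^ S.card * mv G q W (insert w S) - zv G q W‖ ≤ rho (S.card + 1) * ‖zv G q W‖ := by
  have h := hW.2 (insert w S) (Finset.insert_subset hw hS) ⟨w, by simp⟩ hI (by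
    intro s hs
    rcases Finset.mem_insert.1 hs with rfl | hs
    · exact hdw
    · exact hdS s hs)
  rw [Finset.card_insert_of_notMem hwS] at h
  simpa using h

theorem rho_nonneg (k : ℕ) : 0 ≤ rho k := by
  match k with
  | 0 => simp [rho]
  | 1 => simp [rho]
  | (k + 2) => simp only [rho]; positivity

theorem rho_two : rho 2 = 3 / 5 := by norm_num [rho]

theorem rho_succ (k : ℕ) : rho (k + 3) = 5 * rho (k + 2) := by
  simp only [rho]; rw [pow_succ]; ring

theorem rho_ge (k : ℕ) : 3 / 5 ≤ rho (k + 2) := by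
  simp only [rho]
  have : (1 : ℝ) ≤ 5 ^ k := one_le_pow₀ (by norm_num)
  linarith

end Pool.Agent.MP_74a55f_co
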